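import Pool.Agent.WCI.Extend

open CategoryTheory Opposite

namespace Pool.Agent.WCI

/-- The constant map with value the object labelled `True`. -/
def cst (K : SPSh) : K ⟶ disc.obj (Z True False) where
  app m := topMap (K.obj m)

lemma comp_cst {K L : SPSh} (f : K ⟶ L) : f ≫ cst L = cst K := rfl

section
variable {C E : SPSh} {j : C ⟶ E} (P : CellPresentation j)

/-- The maps to the colimit. -/
def CellPresentation.ci (n : ℕ) : P.D n ⟶ P.cocone.pt := P.cocone.ι.app n

lemma CellPresentation.ci_succ (n : ℕ) : (P.inc n ≫ P.loc n) ≫ P.ci (n + 1) = P.ci n := by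
  have h3 := P.cocone.w (homOfLE (Nat.le_add_right n 1))
  refine Eq.trans ?_ h3
  exact congrArg (· ≫ P.cocone.ι.app (n + 1)) (Functor.ofSequence_map_homOfLE_succ
    (fun n => P.inc n ≫ P.loc n) n).symm

lemma CellPresentation.ci_zero (n : ℕ) : ∃ f : P.D 0 ⟶ P.D n, f ≫ P.ci n = P.ci 0 :=
  ⟨_, P.cocone.w (homOfLE (Nat.zero_le n))⟩

lemma CellPresentation.fac' : P.start.hom ≫ P.ci 0 ≫ P.last = j := P.fac

end

/-- The swap of the two endpoints of an arrow. -/
def swap : bdry 1 ⟶ bdry 1 where
  app k := ↾fun x => ⟨⟨fun t => 1 - x.1 t, by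
      intro s t hst
      have h1 : x.1 s = x.1 t := by
        have := x.1.monotone hst
        rcases fin2_cases (x.1 s) with h6 | h6 <;> rcases fin2_cases (x.1 t) with h7 | h7
        · rw [h6, h7]
        · exact PEmpty.elim (x.2 (surj_of h6 h7))
        · rw [h6, h7] at this
          exact absurd this (by decide)
        · rw [h6, h7]
      change 1 - x.1 s ≤ 1 - x.1 t
      rw [h1]⟩, fun hs => by
    refine False.elim ?_
    obtain ⟨s, h0⟩ := hs 0
    obtain ⟨t, h1⟩ := hs 1
    refine PEmpty.elim (x.2 (surj_of (s := t) (t := s) ?_ ?_))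
    · rcases fin2_cases (x.1 t) with h6 | h6
      · exact h6
      · change 1 - x.1 t = 1 at h1
        rw [h6] at h1
        exact absurd h1 (by decide)
    · rcases fin2_cases (x.1 s) with h6 | h6
      · change 1 - x.1 s = 0 at h0
        rw [h6] at h0
        exact absurd h0 (by decide)
      · exact h6⟩
  naturality k l g := by
    refine ConcreteCategory.hom_ext _ _ fun x => ?_
    refine Sigma.ext rfl (heq_of_eq ?_)
    funext hs
    exact Subsingleton.elim (α := PEmpty) _ _

section
variable {R o : Prop} {A B : PSh}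

lemma suspMap_vert (f : A ⟶ B) (c : Fin 2) : (suspMap f).app (op ptAr) (vert A c) = vert B c := by
  apply suspPt_ext (k := ptAr)
  · intro t
    rfl
  · intro hs
    exfalso
    obtain ⟨s, hs0⟩ := hs 0
    obtain ⟨t, ht0⟩ := hs 1
    exact absurd (hs0.symm.trans ht0) (by decide)

lemma swap_vert (c : Fin 2) : swap.app (op ptAr) (vert (bdry 0) c) = vert (bdry 0) (1 - c) := by
  apply suspPt_ext (k := ptAr)
  · intro t
    rfl
  · intro hs
    exfalso
    obtain ⟨s, hs0⟩ := hs 0
    obtain ⟨t, ht0⟩ := hs 1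
    exact absurd (hs0.symm.trans ht0) (by decide)

lemma objLab_congr {Φ : susp A ⟶ Z R o} {Ψ : susp B ⟶ Z R o} {c d : Fin 2}
    (h : Φ.app (op ptAr) (vert A c) = Ψ.app (op ptAr) (vert B d)) : objLab Φ c ↔ objLab Ψ d := by
  unfold objLab
  rw [h]

/-- In the ordered version, arrows go from smaller to bigger labels. -/
lemma objLab_le (ho : o) (Φ : globe 1 ⟶ Z R o) (h : objLab Φ 0) : objLab Φ 1 := by
  let y : Box (cons1 ptAr) := fun j => match j with
    | 0 => ⟨(1 : Fin 2), (1 : Fin 2), le_rfl⟩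
    | j + 1 => ptBox j
  have e1 := lab_zero Φ (k := cons1 ptAr) OrderHom.id (fun _ => PUnit.unit) (consBox ptBox)
  have e2 := lab_zero Φ (k := cons1 ptAr) OrderHom.id (fun _ => PUnit.unit) y
  exact e2.1 (Lab.ord _ ho (consBox ptBox) y rfl (e1.2 h))

lemma objLab_build_zero {a b : Prop} (ha : a → R) (hb : b → R) (ho : o → a → b)
    (φ : A ⟶ Z (a ↔ b) False) : objLab (build ha hb ho φ) 0 ↔ a := by
  change ((0 : Fin 2) = 0 → a) ∧ ((0 : Fin 2) = 1 → b) ↔ a
  simp

lemma objLab_build_one {a b : Prop} (ha : a → R) (hb : b → R) (ho : o → a → b)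
    (φ : A ⟶ Z (a ↔ b) False) : objLab (build ha hb ho φ) 1 ↔ b := by
  change ((1 : Fin 2) = 0 → a) ∧ ((1 : Fin 2) = 1 → b) ↔ b
  simp

end

theorem main : ¬ ∃ (E : SPSh) (u : disc.obj (globe 1) ⟶ E), IsWalkingCoinductiveIso u ∧ IsEpiInf u := by
  rintro ⟨E, u, hu, hepi⟩
  obtain ⟨P⟩ := hu.isFree
  by_cases hT : ∃ n, Nonempty (P.T n)
  · -- there is a cell
    obtain ⟨n, ⟨t⟩⟩ := hT
    obtain ⟨ψ₀, h1, k, α, r, x, hx⟩ := exists_filler n True (topMap (bdry n))
    classical
    let ψ : copies (P.T n) (globe n) ⟶ Z True False :=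
      copyDesc fun t' => if t' = t then ψ₀ else topMap _
    have hψ : copiesMap (P.T n) (globeInc n) ≫ ψ = topMap _ := by
      refine NatTrans.ext (funext fun k => ConcreteCategory.hom_ext _ _ fun y => ?_)
      change (if y.1 = t then ψ₀ else topMap _).app k ((globeInc n).app k y.2) = _
      by_cases hy : y.1 = t
      · rw [if_pos hy]
        exact ConcreteCategory.congr_hom (NatTrans.congr_app h1 k) y.2
      · rw [if_neg hy]
        rfl
    obtain ⟨F₁, hF₁, hcell⟩ := P.attach (Z_isInfCat True False) n (cst (P.D n)) ψ (by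
      rw [hψ]
      rfl)
    obtain ⟨G, hG⟩ := P.extend (Z_isInfCat True False) (fun n => Or.inr fun φ => by
      obtain ⟨ψ, hψ, _⟩ := exists_filler n True φ
      exact ⟨ψ, hψ⟩) (n + 1) F₁
    -- the two extensions agree on `u`
    replace hG : P.ci (n + 1) ≫ P.last ≫ G = F₁ := hG
    have h2 : P.ci n ≫ P.last ≫ G = cst _ := by
      rw [← P.ci_succ, Category.assoc, Category.assoc, hG, hF₁]
    have h5 : u ≫ G = u ≫ cst E := by
      obtain ⟨f, hf⟩ := P.ci_zero n
      rw [← P.fac', ← hf]
      simp only [Category.assoc]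
      rw [h2]
      rfl
    have h6 : G = cst E := (hepi _ (Z_isInfCat True False)).inj h5
    rw [h6] at hG
    have h7 : disc.map ψ = cst _ := by
      rw [← hcell, ← hG]
      rfl
    have h8 : ψ = topMap _ := disc_faithful h7
    have h9 : ψ₀ = topMap _ := by
      have h10 : copyInc _ t ≫ ψ = ψ₀ := by
        refine NatTrans.ext (funext fun k => ConcreteCategory.hom_ext _ _ fun y => ?_)
        change (if t = t then ψ₀ else topMap _).app k y = _
        rw [if_pos rfl]
      rw [← h10, h8]
      rfl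
    apply hx
    rw [h9]
    exact trivial
  · -- there is no cell
    have hT' : ∀ n, IsEmpty (P.T n) := fun n => not_nonempty_iff.mp fun h => hT ⟨n, h⟩
    let f : globe 1 ⟶ Z True True := build (a := False) (b := True) (fun _ => trivial) (fun _ => trivial)
      (fun _ _ => trivial) (botMap _)
    obtain ⟨G, hG⟩ := P.extend (Z_isInfCat True True) (fun n => Or.inl (hT' n)) 0
      (P.start.inv ≫ disc.map f)
    replace hG : P.ci 0 ≫ P.last ≫ G = P.start.inv ≫ disc.map f := hG
    have h1 : u ≫ G = disc.map f := by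
      rw [← P.fac', Category.assoc, Category.assoc, hG, Iso.hom_inv_id_assoc]
    obtain ⟨ψ, hψ⟩ := hu.isLTrivial 1 (disc.map (swap ≫ globeInc 1) ≫ u)
    obtain ⟨g, hg⟩ := disc_full (ψ ≫ G)
    have h2 : globeInc 1 ≫ g = (swap ≫ globeInc 1) ≫ f := by
      apply disc_faithful
      rw [disc.map_comp, ← hg, ← Category.assoc, hψ, Category.assoc, h1, ← disc.map_comp]
    have h3 : ∀ c, g.app (op ptAr) (vert (globe 0) c) = f.app (op ptAr) (vert (globe 0) (1 - c)) := by
      intro c
      have h4 := ConcreteCategory.congr_hom (NatTrans.congr_app h2 (op ptAr)) (vert (bdry 0) c)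
      change g.app _ ((suspMap (globeInc 0)).app _ _) = f.app _ ((suspMap (globeInc 0)).app _ (swap.app _ _)) at h4
      rw [suspMap_vert, swap_vert, suspMap_vert] at h4
      exact h4
    have h4 : objLab g 0 ↔ objLab f 1 := objLab_congr (h3 0)
    have h5 : objLab g 1 ↔ objLab f 0 := objLab_congr (h3 1)
    have h6 : objLab f 1 := (objLab_build_one _ _ _ _).2 trivial
    have h7 : objLab f 0 := h5.1 (objLab_le trivial g (h4.2 h6))
    exact (objLab_build_zero _ _ _ _).1 h7

end Pool.Agent.WCI
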