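import Mathlib

/-!
# `(∞,∞)`-categories as presheaves of spaces on `Δ^∞`

Model used for the `∞`-category `Cat_∞` of the problem.

* `Cat_d` is modelled by `d`-fold complete Segal spaces (Barwick): presheaves of spaces `X` on `Δ^d`
  satisfying the Segal conditions in each variable, such that `X(k₀,…,k_{i-1},0,k_{i+1},…)` does not depend on
  the arguments after the `i`-th one, and which are complete in each variable.
* The inclusion `Cat_d ⊆ Cat_{d+1}` adds a dummy last variable, its right adjoint `R_d` is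
  the restriction to `[0]` in the last variable.
* Hence the limit of the `Cat_d` along the `R_d` is modelled by presheaves of spaces on the union `Δ^∞` of the
  `Δ^d` (finitely supported sequences `([k₀],[k₁],…)`) with the same conditions.

Presheaves of spaces are modelled by injectively fibrant simplicial presheaves, all presheaves being
cofibrant, so that the naive mapping spaces are the right ones (they are Kan complexes). As `Δ^∞` is an
elegant Reedy category, injectively fibrant is the same as Reedy fibrant, and means that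
`Map(B, X) ⟶ Map(A, X)` is a Kan fibration for every monomorphism `A ⟶ B` of presheaves of sets.
-/

open CategoryTheory Opposite

namespace Pool.Agent.WCI

/-- An *arity*: a sequence of natural numbers `k₀, k₁, k₂, …` which is eventually `0`.
It stands for the object `([k₀], [k₁], [k₂], …)` of `Δ × Δ × Δ × ⋯`. -/
structure Arity where
  len : ℕ → ℕ
  fin : ∃ d, ∀ i, d ≤ i → len i = 0

/-- Sequences of monotone maps `[kᵢ] → [lᵢ]`. -/
abbrev Arity.Hom (k l : Arity) : Type := ∀ i, Fin (k.len i + 1) →o Fin (l.len i + 1)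

/-- The category `Δ^∞` (union of the `Δ^d`): morphisms are sequences of monotone maps. -/
instance : Category Arity where
  Hom k l := Arity.Hom k l
  id _ := fun _ => OrderHom.id
  comp f g := fun i => (g i).comp (f i)

/-- Presheaves of sets on `Δ^∞`. -/
abbrev PSh := Arityᵒᵖ ⥤ Type

/-- Simplicial presheaves on `Δ^∞`, as simplicial objects in presheaves of sets. -/
abbrev SPSh := SimplicialObject PSh

/-- A presheaf of sets, seen as a presheaf of discrete simplicial sets. -/
abbrev disc : PSh ⥤ SPSh := SimplicialObject.const PSh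

/-- The mapping space `Map(K, L)`: its `n`-simplices are the maps `K × Δ[n] ⟶ L`. -/
def mapSpace (K L : SPSh) : SSet.{0} :=
  SSet.stdSimplex.op ⋙ Functor.homObjFunctor K L

/-- The restriction map `Map(K, L) ⟶ Map(K', L)` along `f : K' ⟶ K`. -/
def mapPre {K K' : SPSh} (f : K' ⟶ K) (L : SPSh) : mapSpace K L ⟶ mapSpace K' L where
  app _ := ↾fun φ => (Functor.HomObj.ofNatTrans f).comp φ

/-- A map of simplicial sets is a Kan fibration. -/
abbrev IsKanFibration {S T : SSet.{0}} (p : S ⟶ T) : Prop :=
  SSet.modelCategoryQuillen.J.rlp p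

/-- A map of simplicial sets is a trivial Kan fibration. -/
abbrev IsTrivialFibration {S T : SSet.{0}} (p : S ⟶ T) : Prop :=
  SSet.modelCategoryQuillen.I.rlp p

/-- A map of simplicial sets is a (simplicial) homotopy equivalence. -/
def IsHtpyEquiv {S T : SSet.{0}} (p : S ⟶ T) : Prop :=
  ∃ q : T ⟶ S, Nonempty (SSet.Homotopy (p ≫ q) (𝟙 S)) ∧ Nonempty (SSet.Homotopy (q ≫ p) (𝟙 T))

/-- The maps `l ⟶ k` whose `i`-th component has values in `{0,…,c}` or in `{c,…,kᵢ}`. -/
def cutSet (k : Arity) (i : ℕ) (c : Fin (k.len i + 1)) (l : Arity) : Set (l ⟶ k) :=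
  {g | (∀ t, g i t ≤ c) ∨ (∀ t, c ≤ g i t)}

lemma comp_mem_cutSet {k : Arity} {i : ℕ} {c : Fin (k.len i + 1)} {l m : Arity} (f : m ⟶ l)
    {g : l ⟶ k} (h : g ∈ cutSet k i c l) : f ≫ g ∈ cutSet k i c m := by
  rcases h with h | h
  · exact Or.inl fun t => h (f i t)
  · exact Or.inr fun t => h (f i t)

/-- The part of the representable presheaf of `([k₀], [k₁], …)` where `[kᵢ]` is replaced by
`[0,…,c] ∪ [c,…,kᵢ]`. -/
def cut (k : Arity) (i : ℕ) (c : Fin (k.len i + 1)) : Subfunctor (yoneda.obj k) where
  obj l := cutSet k i c l.unop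
  map f _ h := comp_mem_cutSet f.unop h

/-- The maps `l ⟶ k` whose `j`-th component is constantly `0` for `j > i`. -/
def bottomSet (k : Arity) (i : ℕ) (l : Arity) : Set (l ⟶ k) :=
  {g | ∀ j, i < j → ∀ t, g j t = 0}

lemma comp_mem_bottomSet {k : Arity} {i : ℕ} {l m : Arity} (f : m ⟶ l)
    {g : l ⟶ k} (h : g ∈ bottomSet k i l) : f ≫ g ∈ bottomSet k i m :=
  fun j hj t => h j hj (f j t)

/-- The part of the representable presheaf of `([k₀], [k₁], …)` where the `[kⱼ]`, `j > i`, are replaced
by their vertex `0`. -/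
def bottom (k : Arity) (i : ℕ) : Subfunctor (yoneda.obj k) where
  obj l := bottomSet k i l.unop
  map f _ h := comp_mem_bottomSet f.unop h

/-- Pairs of a map `l ⟶ k` and a map from `[lᵢ]` to the objects `true`, `false` of the walking
isomorphism. -/
abbrev IsoEl (k : Arity) (i : ℕ) (l : Arity) : Type := (l ⟶ k) × (Fin (l.len i + 1) → Bool)

/-- Restriction of such pairs. -/
def IsoEl.map {k : Arity} {i : ℕ} {l m : Arity} (f : m ⟶ l) (x : IsoEl k i l) : IsoEl k i m :=
  (f ≫ x.1, fun t => x.2 (f i t))

/-- The product of the representable presheaf of `([k₀], [k₁], …)` with the nerve, in the `i`-th variable, of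
the walking isomorphism (the groupoid with two uniquely isomorphic objects, `true` and `false`). -/
def isoNerve (k : Arity) (i : ℕ) : PSh where
  obj l := IsoEl k i l.unop
  map f := ↾IsoEl.map f.unop
  map_id _ := rfl
  map_comp _ _ := rfl

/-- The inclusion of the object `false` in the walking isomorphism, times `([k₀], [k₁], …)`. -/
def isoNerveInc (k : Arity) (i : ℕ) : yoneda.obj k ⟶ isoNerve k i where
  app _ := ↾fun g => (g, fun _ => false)

/-- `(∞,∞)`-categories: the objects of `Cat_∞ = lim (⋯ → Cat_{d+1} → Cat_d → ⋯)`, as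
injectively fibrant simplicial presheaves on `Δ^∞` all of whose restrictions to `Δ^d` are `d`-fold complete
Segal spaces. -/
structure IsInfCat (X : SPSh) : Prop where
  /-- `X` is injectively fibrant, equivalently Reedy fibrant. -/
  fibrant : ∀ ⦃A B : PSh⦄ (i : A ⟶ B) [Mono i], IsKanFibration (mapPre (disc.map i) X)
  /-- Segal condition in the `i`-th variable: `X(…,kᵢ,…) ≃ X(…,c,…) ×_{X(…,0,…)} X(…,kᵢ-c,…)`. -/
  segal : ∀ (k : Arity) (i : ℕ) (c : Fin (k.len i + 1)),
    IsTrivialFibration (mapPre (disc.map (cut k i c).ι) X)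
  /-- Essential constancy: `X(k₀,…,k_{i-1},0,k_{i+1},k_{i+2},…) ≃ X(k₀,…,k_{i-1},0,0,0,…)`. -/
  essConst : ∀ (k : Arity) (i : ℕ), k.len i = 0 →
    IsTrivialFibration (mapPre (disc.map (bottom k i).ι) X)
  /-- Completeness of the Segal space `X(k₀,…,k_{i-1},•,0,0,…)` (Rezk). -/
  complete : ∀ (k : Arity) (i : ℕ), (∀ j, i ≤ j → k.len j = 0) →
    IsTrivialFibration (mapPre (disc.map (isoNerveInc k i)) X)

/-- The shifted sequence `k₁, k₂, …`. -/
def Arity.tail (k : Arity) : Arity where
  len i := k.len (i + 1)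
  fin := by
    obtain ⟨d, hd⟩ := k.fin
    exact ⟨d, fun i hi => hd _ (by omega)⟩

/-- The shift on morphisms. -/
def tailMap {k l : Arity} (f : k ⟶ l) : k.tail ⟶ l.tail := fun i => f (i + 1)

/-- Both objects `0` and `1` occur in a monotone sequence. -/
abbrev Onto {n : ℕ} (f : Fin (n + 1) →o Fin 2) : Prop := Function.Surjective f

lemma Onto.of_comp {m n : ℕ} {f : Fin (n + 1) →o Fin 2} {g : Fin (m + 1) →o Fin (n + 1)}
    (h : Onto (f.comp g)) : Onto f := Function.Surjective.of_comp h

/-- The elements of the categorical suspension of `A` over `k`: monotone sequences `0 … 0 1 … 1` of `k₀ + 1`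
objects together with, if both `0` and `1` occur, an element of `A` over `(k₁, k₂, …)`. -/
def SuspEl (A : PSh) (k : Arity) : Type :=
  Σ f : Fin (k.len 0 + 1) →o Fin 2, (Onto f → A.obj (op k.tail))

/-- Restriction of elements of the suspension. -/
def SuspEl.map {A : PSh} {k l : Arity} (g : l ⟶ k) (x : SuspEl A k) : SuspEl A l :=
  ⟨x.1.comp (g 0), fun h => A.map (tailMap g).op (x.2 h.of_comp)⟩

lemma SuspEl.map_id {A : PSh} {k : Arity} (x : SuspEl A k) : x.map (𝟙 k) = x := by
  refine Sigma.ext rfl (heq_of_eq ?_)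
  funext h
  exact A.map_id_apply _ (x.2 h)

lemma SuspEl.map_comp {A : PSh} {k l m : Arity} (g : l ⟶ k) (f : m ⟶ l) (x : SuspEl A k) :
    x.map (f ≫ g) = (x.map g).map f := by
  refine Sigma.ext rfl (heq_of_eq ?_)
  funext h
  exact A.map_comp_apply (tailMap g).op (tailMap f).op (x.2 _)

/-- Categorical suspension of a presheaf of sets `A`: two objects `0`, `1`, with
`ΣA(0,1) = A`, `ΣA(1,0) = ∅` and trivial `ΣA(0,0)`, `ΣA(1,1)`. -/
def susp (A : PSh) : PSh where
  obj k := SuspEl A k.unop
  map g := ↾SuspEl.map g.unop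
  map_id _ := ConcreteCategory.hom_ext _ _ SuspEl.map_id
  map_comp f g := ConcreteCategory.hom_ext _ _ (SuspEl.map_comp f.unop g.unop)

/-- Suspension of a map, on elements. -/
def SuspEl.push {A B : PSh} (φ : A ⟶ B) {k : Arity} (x : SuspEl A k) : SuspEl B k :=
  ⟨x.1, fun h => φ.app _ (x.2 h)⟩

lemma SuspEl.push_map {A B : PSh} (φ : A ⟶ B) {k l : Arity} (g : l ⟶ k) (x : SuspEl A k) :
    (x.map g).push φ = (x.push φ).map g := by
  refine Sigma.ext rfl (heq_of_eq ?_)
  funext h
  exact φ.naturality_apply _ _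

/-- Suspension of a map. -/
def suspMap {A B : PSh} (φ : A ⟶ B) : susp A ⟶ susp B where
  app _ := ↾SuspEl.push φ
  naturality _ _ g := ConcreteCategory.hom_ext _ _ (SuspEl.push_map φ g.unop)

/-- The `n`-globe `Σⁿ *`. -/
def globe : ℕ → PSh
  | 0 => (Functor.const _).obj PUnit
  | n + 1 => susp (globe n)

/-- The boundary `Σⁿ ∅` of the `n`-globe. -/
def bdry : ℕ → PSh
  | 0 => (Functor.const _).obj PEmpty
  | n + 1 => susp (bdry n)

/-- The inclusion of the boundary of the `n`-globe. -/
def globeInc : ∀ n, bdry n ⟶ globe n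
  | 0 => (Functor.const _).map (↾PEmpty.elim)
  | n + 1 => suspMap (globeInc n)

/-- `T × f`. -/
def copyMap (T : Type) {α β : Type} (f : α ⟶ β) : T × α ⟶ T × β := ↾fun x => (x.1, f x.2)

/-- `T × A`, the disjoint union of copies of `A` indexed by `T`. -/
def copies (T : Type) (A : PSh) : PSh where
  obj k := T × A.obj k
  map f := copyMap T (A.map f)
  map_id k := by rw [A.map_id]; rfl
  map_comp f g := by rw [A.map_comp]; rfl

/-- `T × φ`. -/
def copiesMap (T : Type) {A B : PSh} (φ : A ⟶ B) : copies T A ⟶ copies T B where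
  app k := copyMap T (φ.app k)
  naturality k l g := by
    refine ConcreteCategory.hom_ext _ _ fun x => ?_
    exact Prod.ext rfl (φ.naturality_apply _ _)

/-- A map of simplicial presheaves is a local equivalence if it becomes an equivalence
in `Cat_∞`, i.e. induces equivalences on mapping spaces into all `(∞,∞)`-categories. -/
def IsLocalEquiv {K L : SPSh} (f : K ⟶ L) : Prop :=
  ∀ X, IsInfCat X → IsHtpyEquiv (mapPre f X)

/-- A presentation of `j : C ⟶ E` as a sequential composite in `Cat_∞`
`C = D 0 → D 1 → D 2 → ⋯` with colimit `E`, where `D n → D (n+1)` is a pushout of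
`T n × (∂Gⁿ → Gⁿ)` for a set `T n`. Pushouts and colimits in `Cat_∞` are computed
as pushouts `P n` (along the monomorphism `T n × (∂Gⁿ → Gⁿ)`) and sequential colimits of
simplicial presheaves, up to local equivalence. -/
structure CellPresentation {C E : SPSh} (j : C ⟶ E) where
  /-- the stages -/
  D : ℕ → SPSh
  isInfCat : ∀ n, IsInfCat (D n)
  start : C ≅ D 0
  /-- the sets of cells -/
  T : ℕ → Type
  /-- the attaching maps -/
  att : ∀ n, disc.obj (copies (T n) (bdry n)) ⟶ D n
  /-- the pushouts -/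
  P : ℕ → SPSh
  cell : ∀ n, disc.obj (copies (T n) (globe n)) ⟶ P n
  inc : ∀ n, D n ⟶ P n
  isPushout : ∀ n, IsPushout (disc.map (copiesMap (T n) (globeInc n))) (att n) (cell n) (inc n)
  loc : ∀ n, P n ⟶ D (n + 1)
  isLocalEquiv : ∀ n, IsLocalEquiv (loc n)
  /-- the colimit of the stages -/
  cocone : Limits.Cocone (Functor.ofSequence fun n => inc n ≫ loc n)
  isColimit : Limits.IsColimit cocone
  last : cocone.pt ⟶ E
  last_isLocalEquiv : IsLocalEquiv last
  fac : start.hom ≫ cocone.ι.app 0 ≫ last = j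

/-- `j` is free: a sequential composite of attachments of cells of dimension `0, 1, 2, …`. -/
def IsFree {C E : SPSh} (j : C ⟶ E) : Prop := Nonempty (CellPresentation j)

/-- `E` is `L`-trivial: `E ⟶ *` is `∞`-surjective, i.e. `E` has an object and any
two parallel `n`-arrows `x`, `y` (any map `∂Gⁿ⁺¹ ⟶ E`) are joined by an `(n+1)`-arrow `x → y`. -/
def IsLTrivial (E : SPSh) : Prop :=
  ∀ (n : ℕ) (φ : disc.obj (bdry n) ⟶ E), ∃ ψ : disc.obj (globe n) ⟶ E,
    disc.map (globeInc n) ≫ ψ = φ

/-- `u : G¹ ⟶ E` is a walking coinductive isomorphism. -/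
structure IsWalkingCoinductiveIso {E : SPSh} (u : disc.obj (globe 1) ⟶ E) : Prop where
  isInfCat : IsInfCat E
  isLTrivial : IsLTrivial E
  /-- `E` is a cell complex: `∅ ⟶ E` is free. -/
  isCellComplex : ∃ e : disc.obj (bdry 0) ⟶ E, IsFree e
  isFree : IsFree u

/-- A map of Kan complexes is an inclusion of path components: it is a homotopy equivalence onto
a union of path components. -/
def IsComponentInclusion {S T : SSet.{0}} (p : S ⟶ T) : Prop :=
  ∃ (U : T.Subcomplex) (q : S ⟶ U.toFunctor),
    (∀ ⦃n m : SimplexCategoryᵒᵖ⦄ (f : n ⟶ m) (x : T.obj n), x ∈ U.obj n ↔ T.map f x ∈ U.obj m) ∧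
    q ≫ U.ι = p ∧ IsHtpyEquiv q

/-- `u : K ⟶ L` is an epimorphism in `Cat_∞`: for every `(∞,∞)`-category `X`
the restriction map `Map(L, X) ⟶ Map(K, X)` is an inclusion of path components. -/
def IsEpiInf {K L : SPSh} (u : K ⟶ L) : Prop :=
  ∀ X, IsInfCat X → IsComponentInclusion (mapPre u X)

end Pool.Agent.WCI
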