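import Pool.Agent.WCI.Defs

open CategoryTheory Opposite

namespace Pool.Agent.WCI

variable {K : SPSh} {W : PSh}

lemma homObj_vertex {n : SimplexCategory} (φ : K.HomObj (disc.obj W) (SSet.stdSimplex.{0}.obj n))
    (δ : SimplexCategory.mk 0 ⟶ SimplexCategory.mk 1) (γ : SimplexCategory.mk 1 ⟶ n) :
    φ.app (op (SimplexCategory.mk 0)) (SSet.stdSimplex.objEquiv.symm (δ ≫ γ)) =
      K.map (SimplexCategory.const (.mk 1) (.mk 0) 0).op ≫
        φ.app (op (SimplexCategory.mk 1)) (SSet.stdSimplex.objEquiv.symm γ) := by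
  have h := φ.naturality δ.op (SSet.stdSimplex.objEquiv.symm γ)
  have h2 : (disc.obj W).map δ.op = 𝟙 _ := rfl
  rw [h2] at h
  have h3 : φ.app (op (SimplexCategory.mk 1)) (SSet.stdSimplex.objEquiv.symm γ) =
      K.map δ.op ≫ φ.app (op (SimplexCategory.mk 0)) (SSet.stdSimplex.objEquiv.symm (δ ≫ γ)) := by
    rw [SSet.stdSimplex.map_objEquiv_symm] at h
    rw [Category.comp_id] at h
    exact h.symm
  rw [h3, ← Category.assoc, ← K.map_comp, ← op_comp]
  have h4 : δ ≫ SimplexCategory.const (.mk 1) (.mk 0) 0 = 𝟙 _ := by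
    ext i
    simp
  rw [h4, op_id, K.map_id, Category.id_comp]

lemma homObj_vertex' {n : SimplexCategory} (φ : K.HomObj (disc.obj W) (SSet.stdSimplex.{0}.obj n))
    (a b : Fin (n.len + 1)) :
    φ.app (op (SimplexCategory.mk 0)) (SSet.stdSimplex.objEquiv.symm (SimplexCategory.const _ _ a)) =
    φ.app (op (SimplexCategory.mk 0)) (SSet.stdSimplex.objEquiv.symm (SimplexCategory.const _ _ b)) := by
  wlog hab : a ≤ b with H
  · exact (H φ b a (le_of_not_ge hab)).symm
  let γ : SimplexCategory.mk 1 ⟶ n := SimplexCategory.Hom.mk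
    ⟨fun t => if t = 0 then a else b, by
      intro s t hst
      by_cases hs : s = 0
      · by_cases ht : t = 0 <;> simp [hs, ht, hab]
      · have ht : t ≠ 0 := by
          rintro rfl
          exact hs (Fin.le_zero_iff.mp hst)
        simp [hs, ht]⟩
  have h0 := homObj_vertex φ (SimplexCategory.const _ _ 0) γ
  have h1 := homObj_vertex φ (SimplexCategory.const _ _ 1) γ
  have e0 : SimplexCategory.const (.mk 0) (.mk 1) 0 ≫ γ = SimplexCategory.const _ _ a := by
    ext i
    have hi : i = (0 : Fin 1) := Subsingleton.elim (α := Fin 1) _ _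
    subst hi
    rfl
  have e1 : SimplexCategory.const (.mk 0) (.mk 1) 1 ≫ γ = SimplexCategory.const _ _ b := by
    ext i
    have hi : i = (0 : Fin 1) := Subsingleton.elim (α := Fin 1) _ _
    subst hi
    rfl
  rw [e0] at h0
  rw [e1] at h1
  rw [h0, h1]

lemma homObj_app_eq {n : SimplexCategory} (φ : K.HomObj (disc.obj W) (SSet.stdSimplex.{0}.obj n))
    (m : SimplexCategoryᵒᵖ) (α β : (SSet.stdSimplex.{0}.obj n).obj m) :
    φ.app m α = φ.app m β := by
  have key : ∀ α : (SSet.stdSimplex.{0}.obj n).obj m, φ.app m α =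
      K.map (SimplexCategory.const (.mk 0) m.unop 0).op ≫
        φ.app (op (SimplexCategory.mk 0)) (SSet.stdSimplex.objEquiv.symm (SimplexCategory.const _ _ 0)) := by
    intro α
    have h := φ.naturality (SimplexCategory.const (.mk 0) m.unop 0).op α
    have h2 : (disc.obj W).map (SimplexCategory.const (.mk 0) m.unop 0).op = 𝟙 _ := rfl
    rw [h2, Category.comp_id] at h
    rw [← h]
    congr 1
    have : (SSet.stdSimplex.{0}.obj n).map (SimplexCategory.const (.mk 0) m.unop 0).op α =
        SSet.stdSimplex.objEquiv.symm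
          (SimplexCategory.const _ _ ((SSet.stdSimplex.objEquiv α).toOrderHom 0)) := by
      rw [SSet.stdSimplex.map_apply]
      congr 1
    rw [this]
    exact homObj_vertex' φ _ _
  rw [key α, key β]

/-- Maps into a discrete object have discrete mapping spaces. -/
lemma homObj_eq_ofNatTrans {n : SimplexCategory}
    (φ : K.HomObj (disc.obj W) (SSet.stdSimplex.{0}.obj n)) :
    ∃ ψ : K ⟶ disc.obj W, φ = Functor.HomObj.ofNatTrans ψ := by
  refine ⟨⟨fun m => φ.app m (SSet.stdSimplex.objEquiv.symm (SimplexCategory.const _ _ 0)), ?_⟩, ?_⟩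
  · intro m m' f
    rw [← φ.naturality]
    congr 1
  · ext m α : 3
    exact homObj_app_eq φ _ _ _

end Pool.Agent.WCI
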