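import Pool.Agent.WCI.Discrete

open CategoryTheory Opposite

namespace Pool.Agent.WCI

section
variable {K K' : SPSh} {W : PSh}

/-- The constant simplex given by a map. -/
def pt (n : SimplexCategoryᵒᵖ) (ψ : K ⟶ disc.obj W) : (mapSpace K (disc.obj W)).obj n :=
  Functor.HomObj.ofNatTrans ψ

lemma pt_surj {n : SimplexCategoryᵒᵖ} (x : (mapSpace K (disc.obj W)).obj n) : ∃ ψ, x = pt n ψ :=
  homObj_eq_ofNatTrans (n := n.unop) x

lemma pt_inj {n : SimplexCategoryᵒᵖ} {ψ ψ' : K ⟶ disc.obj W} (h : pt n ψ = pt n ψ') : ψ = ψ' := by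
  refine NatTrans.ext (funext fun m => ?_)
  exact Functor.HomObj.congr_app h m
    (SSet.stdSimplex.objEquiv.symm (SimplexCategory.const _ _ 0))

lemma map_pt {n m : SimplexCategoryᵒᵖ} (f : n ⟶ m) (ψ : K ⟶ disc.obj W) :
    (mapSpace K (disc.obj W)).map f (pt n ψ) = pt m ψ := rfl

lemma mapPre_pt (f : K' ⟶ K) (n : SimplexCategoryᵒᵖ) (ψ : K ⟶ disc.obj W) :
    (mapPre f (disc.obj W)).app n (pt n ψ) = pt n (f ≫ ψ) := rfl

/-- A simplicial set is discrete if all its structure maps are bijective. -/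
def IsDisc (S : SSet.{0}) : Prop := ∀ ⦃n m : SimplexCategoryᵒᵖ⦄ (f : n ⟶ m), Function.Bijective (S.map f)

lemma isDisc_mapSpace : IsDisc (mapSpace K (disc.obj W)) := by
  intro n m f
  constructor
  · intro x y hxy
    obtain ⟨ψ, rfl⟩ := pt_surj x
    obtain ⟨ψ', rfl⟩ := pt_surj y
    rw [map_pt, map_pt] at hxy
    rw [pt_inj hxy]
  · intro y
    obtain ⟨ψ', rfl⟩ := pt_surj y
    exact ⟨pt n ψ', rfl⟩

end

section
variable {S T X : SSet.{0}}

lemma IsDisc.map_eq (hS : IsDisc S) {n m : SimplexCategoryᵒᵖ} (f g : n ⟶ m) (x : S.obj n) :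
    S.map f x = S.map g x := by
  obtain ⟨y, rfl⟩ := (hS (SimplexCategory.const n.unop (.mk 0) 0).op).2 x
  have h : (SimplexCategory.const n.unop (.mk 0) 0).op ≫ f =
      (SimplexCategory.const n.unop (.mk 0) 0).op ≫ g := by
    apply Quiver.Hom.unop_inj
    ext i
    have := Subsingleton.elim (α := Fin 1)
    simp
  rw [← ConcreteCategory.comp_apply, ← ConcreteCategory.comp_apply, ← S.map_comp, ← S.map_comp, h]

/-- maps out of something connected to a point `v`. -/
lemma IsDisc.eq_const (hS : IsDisc S) (v : X.obj (op (.mk 0)))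
    (hv : ∀ (m : SimplexCategoryᵒᵖ) (x : X.obj m), ∃ (h : m ⟶ op (.mk 0)) (e : X.obj (op (.mk 1)))
      (δ δ' : op (SimplexCategory.mk 1) ⟶ op (SimplexCategory.mk 0)), X.map δ e = X.map h x ∧ X.map δ' e = v)
    (φ : X ⟶ S) : φ = SSet.const (φ.app _ v) := by
  ext m x
  obtain ⟨h, e, δ, δ', h1, h2⟩ := hv m x
  have h3 : S.map h (φ.app _ x) = φ.app _ v := by
    rw [← h2, φ.naturality_apply, ← φ.naturality_apply, ← h1, φ.naturality_apply]
    exact hS.map_eq _ _ _
  have h4 : (SSet.const (φ.app _ v) : X ⟶ S).app m x =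
    S.map (SimplexCategory.const m.unop (.mk 0) 0).op (φ.app _ v) := rfl
  refine Eq.trans ?_ h4.symm
  rw [← h3, ← ConcreteCategory.comp_apply, ← S.map_comp, ← hS.map_eq (𝟙 _) _ _, S.map_id]
  rfl

lemma stdSimplex_connected (n : ℕ) (i : Fin (n + 1)) (m : SimplexCategoryᵒᵖ)
    (x : (SSet.stdSimplex.{0}.obj (.mk n)).obj m) :
    ∃ (h : m ⟶ op (.mk 0)) (e : (SSet.stdSimplex.{0}.obj (.mk n)).obj (op (.mk 1)))
      (δ δ' : op (SimplexCategory.mk 1) ⟶ op (SimplexCategory.mk 0)),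
      (SSet.stdSimplex.{0}.obj (.mk n)).map δ e = (SSet.stdSimplex.{0}.obj (.mk n)).map h x ∧
      (SSet.stdSimplex.{0}.obj (.mk n)).map δ' e = SSet.stdSimplex.obj₀Equiv.symm i ∧
      Set.range (SSet.stdSimplex.asOrderHom e) ⊆ Set.range (SSet.stdSimplex.asOrderHom x) ∪ {i} := by
  set w : Fin (n + 1) := SSet.stdSimplex.asOrderHom x 0 with hw
  have hh : ∀ (h : m ⟶ op (.mk 0)) (h' : h = (SimplexCategory.const (.mk 0) m.unop 0).op),
    (SSet.stdSimplex.{0}.obj (.mk n)).map h x = SSet.stdSimplex.obj₀Equiv.symm w := by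
    rintro _ rfl
    apply SSet.stdSimplex.obj₀Equiv.injective
    rw [Equiv.apply_symm_apply]
    rfl
  rcases le_total w i with hwi | hwi
  · refine ⟨(SimplexCategory.const (.mk 0) m.unop 0).op, SSet.stdSimplex.edge n w i hwi,
      (SimplexCategory.const (.mk 0) (.mk 1) 0).op, (SimplexCategory.const (.mk 0) (.mk 1) 1).op, ?_, ?_, ?_⟩
    · rw [hh _ rfl]
      apply SSet.stdSimplex.obj₀Equiv.injective
      rw [Equiv.apply_symm_apply]
      rfl
    · apply SSet.stdSimplex.obj₀Equiv.injective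
      rw [Equiv.apply_symm_apply]
      rfl
    · rintro _ ⟨t, rfl⟩
      have : t = (0 : Fin 2) ∨ t = (1 : Fin 2) := by
        match t with
        | ⟨0, _⟩ => exact Or.inl rfl
        | ⟨1, _⟩ => exact Or.inr rfl
      rcases this with rfl | rfl
      · exact Or.inl ⟨0, rfl⟩
      · exact Or.inr rfl
  · refine ⟨(SimplexCategory.const (.mk 0) m.unop 0).op, SSet.stdSimplex.edge n i w hwi,
      (SimplexCategory.const (.mk 0) (.mk 1) 1).op, (SimplexCategory.const (.mk 0) (.mk 1) 0).op, ?_, ?_, ?_⟩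
    · rw [hh _ rfl]
      apply SSet.stdSimplex.obj₀Equiv.injective
      rw [Equiv.apply_symm_apply]
      rfl
    · apply SSet.stdSimplex.obj₀Equiv.injective
      rw [Equiv.apply_symm_apply]
      rfl
    · rintro _ ⟨t, rfl⟩
      have : t = (0 : Fin 2) ∨ t = (1 : Fin 2) := by
        match t with
        | ⟨0, _⟩ => exact Or.inl rfl
        | ⟨1, _⟩ => exact Or.inr rfl
      rcases this with rfl | rfl
      · exact Or.inr rfl
      · exact Or.inl ⟨0, rfl⟩

/-- A map between discrete simplicial sets is a Kan fibration. -/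
lemma isKanFibration_of_isDisc (hS : IsDisc S) (hT : IsDisc T) (p : S ⟶ T) : IsKanFibration p := by
  intro A B i hi
  simp only [SSet.modelCategoryQuillen.J, MorphismProperty.iSup_iff] at hi
  obtain ⟨n, ⟨i⟩⟩ := hi
  have hmem : SSet.stdSimplex.obj₀Equiv.symm i ∈ (SSet.horn.{0} (n + 1) i).obj (op (.mk 0)) := by
    rw [SSet.mem_horn_iff]
    intro h
    obtain ⟨j, hj⟩ := exists_ne i
    have : j ∈ Set.range (SSet.stdSimplex.asOrderHom (SSet.stdSimplex.obj₀Equiv.symm i)) ∪ {i} := by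
      rw [h]; trivial
    rcases this with ⟨t, ht⟩ | h2
    · exact hj ht.symm
    · exact hj h2
  constructor
  intro top bot sq
  have key1 := hS.eq_const (X := (SSet.horn.{0} (n + 1) i : SSet)) ⟨_, hmem⟩ (by
    rintro m ⟨x, hx⟩
    obtain ⟨h, e, δ, δ', h1, h2, h3⟩ := stdSimplex_connected (n + 1) i m x
    refine ⟨h, ⟨e, ?_⟩, δ, δ', Subtype.ext h1, Subtype.ext h2⟩
    intro h4
    apply hx
    rw [Set.eq_univ_iff_forall] at h4 ⊢
    intro j
    rcases h4 j with h5 | h5
    · exact h3 h5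
    · exact Or.inr h5) top
  have key2 := hT.eq_const (SSet.stdSimplex.obj₀Equiv.symm i) (by
    intro m x
    obtain ⟨h, e, δ, δ', h1, h2, h3⟩ := stdSimplex_connected (n + 1) i m x
    exact ⟨h, e, δ, δ', h1, h2⟩) bot
  refine ⟨⟨{ l := SSet.const (top.app _ ⟨_, hmem⟩), fac_left := ?_, fac_right := ?_ }⟩⟩
  · conv_rhs => rw [key1]
    rfl
  · rw [key2, SSet.const_comp]
    congr 1
    exact ConcreteCategory.congr_hom (NatTrans.congr_app sq.w (op (.mk 0))) ⟨_, hmem⟩

/-- An isomorphism is a trivial fibration. -/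
lemma isTrivialFibration_of_isIso (p : S ⟶ T) [IsIso p] : IsTrivialFibration p := by
  intro A B i _
  infer_instance

end

end Pool.Agent.WCI
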