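import Pool.Agent.WCI.Discrete2

open CategoryTheory Opposite MonoidalCategory

namespace Pool.Agent.WCI

section
variable {S T X : SSet.{0}}

lemma IsDisc.hom_ext (hS : IsDisc S) {f g : X ⟶ S}
    (h : ∀ x : X.obj (op (.mk 0)), f.app _ x = g.app _ x) : f = g := by
  refine NatTrans.ext (funext fun m => ConcreteCategory.hom_ext _ _ fun x => ?_)
  apply (hS (SimplexCategory.const (.mk 0) m.unop 0).op).1
  rw [← f.naturality_apply, ← g.naturality_apply]
  exact h _

/-- Homotopic maps to a discrete simplicial set are equal. -/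
lemma IsDisc.homotopy_eq (hS : IsDisc S) {f g : X ⟶ S} (H : SSet.Homotopy f g) : f = g := by
  apply hS.hom_ext
  intro x
  suffices hmain : (SSet.ι₀ ≫ H.h).app (op (.mk 0)) x = (SSet.ι₁ ≫ H.h).app (op (.mk 0)) x by
    have e0 := ConcreteCategory.congr_hom (NatTrans.congr_app H.h₀ (op (.mk 0))) x
    have e1 := ConcreteCategory.congr_hom (NatTrans.congr_app H.h₁ (op (.mk 0))) x
    exact e0.symm.trans (hmain.trans e1)
  let x' := X.map (SimplexCategory.const (.mk 1) (.mk 0) 0).op x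
  let e : (SSet.stdSimplex.{0}.obj (.mk 1)).obj (op (.mk 1)) := SSet.stdSimplex.objEquiv.symm (𝟙 _)
  let z : (X ⊗ SSet.stdSimplex.{0}.obj (.mk 1)).obj (op (.mk 1)) := (x', e)
  have hx : ∀ c : Fin 2, X.map (SimplexCategory.const (.mk 0) (.mk 1) c).op x' = x := by
    intro c
    simp only [x']
    rw [← ConcreteCategory.comp_apply, ← X.map_comp, ← op_comp]
    have : SimplexCategory.const (.mk 0) (.mk 1) c ≫ SimplexCategory.const (.mk 1) (.mk 0) 0 = 𝟙 _ := by
      ext i
      have := Subsingleton.elim (α := Fin 1)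
      simp
    rw [this, op_id, X.map_id]
    rfl
  have h0 : (SSet.ι₀ (X := X)).app (op (.mk 0)) x =
      (X ⊗ SSet.stdSimplex.{0}.obj (.mk 1)).map (SimplexCategory.const (.mk 0) (.mk 1) 0).op z := by
    refine Prod.ext ?_ ?_
    · exact (hx 0).symm
    · apply SSet.stdSimplex.obj₀Equiv.injective
      rfl
  have h1 : (SSet.ι₁ (X := X)).app (op (.mk 0)) x =
      (X ⊗ SSet.stdSimplex.{0}.obj (.mk 1)).map (SimplexCategory.const (.mk 0) (.mk 1) 1).op z := by
    refine Prod.ext ?_ ?_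
    · exact (hx 1).symm
    · apply SSet.stdSimplex.obj₀Equiv.injective
      rfl
  have h2 : ∀ (y y' : (X ⊗ SSet.stdSimplex.{0}.obj (.mk 1)).obj (op (.mk 0))),
    y = (X ⊗ SSet.stdSimplex.{0}.obj (.mk 1)).map (SimplexCategory.const (.mk 0) (.mk 1) 0).op z →
    y' = (X ⊗ SSet.stdSimplex.{0}.obj (.mk 1)).map (SimplexCategory.const (.mk 0) (.mk 1) 1).op z →
    H.h.app _ y = H.h.app _ y' := by
    rintro _ _ rfl rfl
    rw [H.h.naturality_apply, H.h.naturality_apply]
    exact hS.map_eq _ _ _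
  exact h2 _ _ h0 h1

end

section
variable {K K' : SPSh} {W : PSh}

/-- If restriction along `f` is an equivalence, maps to a discrete object extend along `f`. -/
lemma IsHtpyEquiv.exists_ext {f : K' ⟶ K} (h : IsHtpyEquiv (mapPre f (disc.obj W)))
    (ψ : K' ⟶ disc.obj W) : ∃ ψ' : K ⟶ disc.obj W, f ≫ ψ' = ψ := by
  obtain ⟨q, _, ⟨H⟩⟩ := h
  have h1 := isDisc_mapSpace.homotopy_eq H
  obtain ⟨ψ', hψ'⟩ := pt_surj (q.app _ (pt (op (.mk 0)) ψ))
  refine ⟨ψ', pt_inj (n := op (.mk 0)) ?_⟩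
  rw [← mapPre_pt, ← hψ']
  exact ConcreteCategory.congr_hom (NatTrans.congr_app h1 (op (.mk 0))) (pt (op (.mk 0)) ψ)

/-- If restriction along `u` is an inclusion of components, it is injective on maps to a
discrete object. -/
lemma IsComponentInclusion.inj {u : K' ⟶ K} (h : IsComponentInclusion (mapPre u (disc.obj W)))
    {ψ ψ' : K ⟶ disc.obj W} (hψ : u ≫ ψ = u ≫ ψ') : ψ = ψ' := by
  obtain ⟨U, q, _, hq, r, ⟨H⟩, _⟩ := h
  have h1 := isDisc_mapSpace.homotopy_eq H
  have h2 : ∀ x : (mapSpace K (disc.obj W)).obj (op (.mk 0)), r.app _ (q.app _ x) = x := fun x =>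
    ConcreteCategory.congr_hom (NatTrans.congr_app h1 (op (.mk 0))) x
  apply pt_inj (n := op (.mk 0))
  rw [← h2 (pt _ ψ), ← h2 (pt _ ψ')]
  congr 1
  apply Subtype.ext
  have h3 : ∀ x : (mapSpace K (disc.obj W)).obj (op (.mk 0)),
      U.ι.app (op (.mk 0)) (q.app (op (.mk 0)) x) = (mapPre u (disc.obj W)).app (op (.mk 0)) x := by
    intro x
    rw [← hq]
    rfl
  have h4 := (h3 (pt _ ψ)).trans ((congrArg (pt (op (.mk 0))) hψ).trans (h3 (pt _ ψ')).symm)
  exact h4

variable {A B : PSh}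

lemma disc_full (ψ : disc.obj A ⟶ disc.obj W) : ∃ φ : A ⟶ W, ψ = disc.map φ := by
  refine ⟨ψ.app (op (.mk 0)), ?_⟩
  refine NatTrans.ext (funext fun m => ?_)
  have h := ψ.naturality (SimplexCategory.const m.unop (.mk 0) 0).op
  exact ((Category.id_comp _).symm.trans h).trans (Category.comp_id _)

lemma disc_faithful {φ φ' : A ⟶ W} (h : disc.map φ = disc.map φ') : φ = φ' :=
  NatTrans.congr_app h (op (.mk 0))

/-- If every map from `A` to the presheaf `W` extends uniquely to `B` then `Map(B, W) ⟶ Map(A, W)`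
is an isomorphism. -/
lemma isTrivialFibration_mapPre (i : A ⟶ B)
    (h : Function.Bijective (fun φ : B ⟶ W => i ≫ φ)) :
    IsTrivialFibration (mapPre (disc.map i) (disc.obj W)) := by
  have : ∀ n, IsIso ((mapPre (disc.map i) (disc.obj W)).app n) := by
    intro n
    rw [isIso_iff_bijective]
    constructor
    · intro x y hxy
      obtain ⟨ψ, rfl⟩ := pt_surj x
      obtain ⟨ψ', rfl⟩ := pt_surj y
      obtain ⟨φ, rfl⟩ := disc_full ψ
      obtain ⟨φ', rfl⟩ := disc_full ψ'
      rw [mapPre_pt, mapPre_pt] at hxy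
      have h1 := pt_inj hxy
      rw [← disc.map_comp, ← disc.map_comp] at h1
      rw [h.1 (disc_faithful h1)]
    · intro y
      obtain ⟨ψ', rfl⟩ := pt_surj y
      obtain ⟨φ', rfl⟩ := disc_full ψ'
      obtain ⟨φ, hφ⟩ := h.2 φ'
      refine ⟨pt n (disc.map φ), ?_⟩
      rw [mapPre_pt, ← disc.map_comp]
      exact congrArg (fun t => pt n (disc.map t)) hφ
  have := NatIso.isIso_of_isIso_app (mapPre (disc.map i) (disc.obj W))
  exact isTrivialFibration_of_isIso _

/-- Criterion for a presheaf of sets to be an `(∞,∞)`-category. -/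
lemma isInfCat_disc
    (segal : ∀ (k : Arity) (i : ℕ) (c : Fin (k.len i + 1)),
      Function.Bijective (fun φ : yoneda.obj k ⟶ W => (cut k i c).ι ≫ φ))
    (essConst : ∀ (k : Arity) (i : ℕ), k.len i = 0 →
      Function.Bijective (fun φ : yoneda.obj k ⟶ W => (bottom k i).ι ≫ φ))
    (complete : ∀ (k : Arity) (i : ℕ), (∀ j, i ≤ j → k.len j = 0) →
      Function.Bijective (fun φ : isoNerve k i ⟶ W => isoNerveInc k i ≫ φ)) :
    IsInfCat (disc.obj W) where
  fibrant _ _ _ _ := isKanFibration_of_isDisc isDisc_mapSpace isDisc_mapSpace _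
  segal k i c := isTrivialFibration_mapPre _ (segal k i c)
  essConst k i hi := isTrivialFibration_mapPre _ (essConst k i hi)
  complete k i hi := isTrivialFibration_mapPre _ (complete k i hi)

end

end Pool.Agent.WCI
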