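import Pool.Agent.WCI.Fill3

open CategoryTheory Opposite

namespace Pool.Agent.WCI

/-- Inclusion of the copy indexed by `t`. -/
def copyInc {T : Type} (A : PSh) (t : T) : A ⟶ copies T A where
  app k := ↾fun x => (t, x)

/-- Maps out of a disjoint union. -/
def copyDesc {T : Type} {A W : PSh} (ψ : T → (A ⟶ W)) : copies T A ⟶ W where
  app k := ↾fun x => (ψ x.1).app k x.2
  naturality k l g := by
    refine ConcreteCategory.hom_ext _ _ fun x => ?_
    exact (ψ x.1).naturality_apply g x.2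

section
variable {C E : SPSh} {j : C ⟶ E} (P : CellPresentation j) {W : PSh} (hW : IsInfCat (disc.obj W))

include hW

/-- Extension along the attachment of the `n`-cells, given extensions of the cells. -/
lemma CellPresentation.attach (n : ℕ) (F : P.D n ⟶ disc.obj W)
    (ψ : copies (P.T n) (globe n) ⟶ W)
    (hψ : disc.map (copiesMap (P.T n) (globeInc n) ≫ ψ) = P.att n ≫ F) :
    ∃ F' : P.D (n + 1) ⟶ disc.obj W, P.inc n ≫ P.loc n ≫ F' = F ∧
      P.cell n ≫ P.loc n ≫ F' = disc.map ψ := by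
  obtain ⟨F', hF'⟩ := (P.isLocalEquiv n _ hW).exists_ext
    ((P.isPushout n).desc (disc.map ψ) F (by rw [← hψ, disc.map_comp]))
  refine ⟨F', ?_, ?_⟩
  · rw [hF']
    exact (P.isPushout n).inr_desc _ _ _
  · rw [hF']
    exact (P.isPushout n).inl_desc _ _ _

/-- Extension along the attachment of the `n`-cells. -/
lemma CellPresentation.step (n : ℕ)
    (hfill : IsEmpty (P.T n) ∨ ∀ φ : bdry n ⟶ W, ∃ ψ : globe n ⟶ W, globeInc n ≫ ψ = φ)
    (F : P.D n ⟶ disc.obj W) :
    ∃ F' : P.D (n + 1) ⟶ disc.obj W, (P.inc n ≫ P.loc n) ≫ F' = F := by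
  obtain ⟨χ, hχ⟩ := disc_full (P.att n ≫ F)
  have h : ∀ t : P.T n, ∃ ψ : globe n ⟶ W, globeInc n ≫ ψ = copyInc _ t ≫ χ := by
    intro t
    rcases hfill with h | h
    · exact (h.false t).elim
    · exact h _
  choose ψ hψ using h
  obtain ⟨F', h1, _⟩ := P.attach hW n F (copyDesc ψ) (by
      rw [hχ]
      congr 1
      refine NatTrans.ext (funext fun k => ConcreteCategory.hom_ext _ _ fun x => ?_)
      exact ConcreteCategory.congr_hom (NatTrans.congr_app (hψ x.1) k) x.2)
  exact ⟨F', by rw [Category.assoc]; exact h1⟩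

/-- Extension of a map from the `n`-th stage. -/
lemma CellPresentation.extend
    (hfill : ∀ n, IsEmpty (P.T n) ∨ ∀ φ : bdry n ⟶ W, ∃ ψ : globe n ⟶ W, globeInc n ≫ ψ = φ)
    (n : ℕ) (F : P.D n ⟶ disc.obj W) :
    ∃ G : E ⟶ disc.obj W, P.cocone.ι.app n ≫ P.last ≫ G = F := by
  let S := Functor.ofSequence fun n => P.inc n ≫ P.loc n
  let T : ℕ → Type := fun m => {g : P.D m ⟶ disc.obj W // ∀ h : m ≤ n, g = S.map (homOfLE h) ≫ F}
  have hstep : ∀ m (g : T m), ∃ g' : T (m + 1), (P.inc m ≫ P.loc m) ≫ g'.1 = g.1 := by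
    rintro m ⟨g, hg⟩
    by_cases hm : m + 1 ≤ n
    · refine ⟨⟨S.map (homOfLE hm) ≫ F, fun _ => rfl⟩, ?_⟩
      have h1 : S.map (homOfLE (Nat.le_add_right m 1)) = P.inc m ≫ P.loc m :=
        Functor.ofSequence_map_homOfLE_succ _ m
      have h2 : S.map (homOfLE (Nat.le_add_right m 1)) ≫ (S.map (homOfLE hm) ≫ F) = g := by
        refine Eq.trans ?_ (hg (by omega)).symm
        refine (Category.assoc _ _ _).symm.trans ?_
        exact congrArg (· ≫ F) (S.map_comp _ _).symm
      rw [h1] at h2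
      exact h2
    · obtain ⟨g', hg'⟩ := P.step hW m (hfill m) g
      exact ⟨⟨g', fun h => absurd h hm⟩, hg'⟩
  choose next hnext using hstep
  let G : ∀ m, T m := fun m => Nat.rec ⟨S.map (homOfLE (Nat.zero_le n)) ≫ F, fun _ => rfl⟩
    (fun m g => next m g) m
  let c : Limits.Cocone S :=
    { pt := disc.obj W
      ι := NatTrans.ofSequence (fun m => (G m).1) (fun m => by
        have h1 : S.map (homOfLE (Nat.le_add_right m 1)) = P.inc m ≫ P.loc m :=
          Functor.ofSequence_map_homOfLE_succ _ m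
        rw [h1]
        exact (hnext m (G m)).trans (Category.comp_id _).symm) }
  obtain ⟨H, hH⟩ := (P.last_isLocalEquiv _ hW).exists_ext (P.isColimit.desc c)
  refine ⟨H, ?_⟩
  rw [hH, P.isColimit.fac]
  have h2 := (G n).2 le_rfl
  have h3 : S.map (homOfLE (le_refl n)) = 𝟙 _ := S.map_id _
  rw [h3] at h2
  exact h2.trans (Category.id_comp _)

end

end Pool.Agent.WCI
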