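import Pool.Agent.WCI.Zcomplete

open CategoryTheory Opposite

namespace Pool.Agent.WCI

variable {R o : Prop}

lemma fin2_cases (t : Fin 2) : t = 0 ∨ t = 1 := by
  revert t
  decide

/-- The tail of a box. -/
def Box.tail {k : Arity} (x : Box k) : Box k.tail := fun j => x (j + 1)

/-- The arity `1, k₀, k₁, …`. -/
def cons1 (k : Arity) : Arity where
  len i := match i with
    | 0 => 1
    | i + 1 => k.len i
  fin := by
    obtain ⟨d, hd⟩ := k.fin
    refine ⟨d + 1, fun i hi => ?_⟩
    match i, hi with
    | 0, hi => omega
    | i + 1, hi => exact hd i (by omega)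

/-- The box `[0,1], x₀, x₁, …`. -/
def consBox {k : Arity} (x : Box k) : Box (cons1 k) := fun j =>
  match j with
  | 0 => ⟨(0 : Fin 2), (1 : Fin 2), Fin.zero_le _⟩
  | j + 1 => x j

/-- Maps out of `cons1 k`. -/
def consMap {k l : Arity} (f : Fin 2 →o Fin (l.len 0 + 1)) (g : k ⟶ l.tail) : cons1 k ⟶ l := fun j =>
  match j with
  | 0 => f
  | j + 1 => g j

lemma surj_of {n : ℕ} {f : Fin (n + 1) →o Fin 2} {s t : Fin (n + 1)} (hs : f s = 0) (ht : f t = 1) :
    Function.Surjective f := by
  intro u
  rcases fin2_cases u with rfl | rfl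
  · exact ⟨s, hs⟩
  · exact ⟨t, ht⟩

/-- Labelling of a suspension. -/
def buildLab {A : PSh} {a b : Prop} (ha : a → R) (hb : b → R) (ho : o → a → b)
    (φ : A ⟶ Z (a ↔ b) False) {k : Arity} (f : Fin (k.len 0 + 1) →o Fin 2)
    (h : Function.Surjective f → A.obj (op k.tail)) : Lab R o k where
  b r x := match r with
    | 0 => (f (x 0).lo = 0 → a) ∧ (f (x 0).lo = 1 → b)
    | r + 1 => ∀ (hs : Function.Surjective f), f (x 0).lo = 0 → f (x 0).hi = 1 →
      (φ.app _ (h hs) : Lab (a ↔ b) False k.tail).b r x.tail
  dep r x y hxy hr := by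
    match r with
    | 0 => simp only [hr]
    | r + 1 =>
      have h0 : x 0 = y 0 := hxy 0 (by omega)
      have h1 : ∀ hs, (φ.app _ (h hs) : Lab (a ↔ b) False k.tail).b r x.tail ↔
          (φ.app _ (h hs) : Lab (a ↔ b) False k.tail).b r y.tail := fun hs =>
        Lab.dep _ r _ _ (fun j hj => hxy (j + 1) (by omega)) hr
      simp only [h0, h1]
  refl r x j hj hx := by
    match r, j with
    | 0, j => omega
    | r + 1, 0 =>
      intro hs h0 h1
      rw [hx, h1] at h0
      exact absurd h0 (by decide)
    | r + 1, j + 1 =>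
      intro hs h0 h1
      exact Lab.refl _ r _ j (by omega) hx
  comp r x y z j hj h1 h2 h3 h4 h5 := by
    match r, j with
    | 0, j => omega
    | r + 1, 0 =>
      have e1 : x.tail = y.tail := funext fun j => h1 (j + 1) (by omega)
      have e2 : x.tail = z.tail := funext fun j => h2 (j + 1) (by omega)
      simp only [← e1, ← e2, ← h3, ← h4, h5]
      constructor
      · intro H
        refine ⟨fun hs c0 c1 => H hs c0 ?_, fun hs c0 c1 => H hs ?_ c1⟩
        · have hle : (y 0).hi ≤ (x 0).hi := h4.le.trans ((z 0).le.trans h5.le)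
          have := f.monotone hle
          rw [c1] at this
          rcases fin2_cases (f (x 0).hi) with h6 | h6
          · rw [h6] at this
            exact absurd this (by decide)
          · exact h6
        · have hle : (x 0).lo ≤ (y 0).hi := h3.le.trans (y 0).le
          have := f.monotone hle
          rw [c0] at this
          rcases fin2_cases (f (x 0).lo) with h6 | h6
          · exact h6
          · rw [h6] at this
            exact absurd this (by decide)
      · rintro ⟨H1, H2⟩ hs c0 c1
        rcases fin2_cases (f (y 0).hi) with h6 | h6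
        · exact H2 hs h6 c1
        · exact H1 hs c0 h6
    | r + 1, j + 1 =>
      have e1 : x 0 = y 0 := h1 0 (by omega)
      have e2 : x 0 = z 0 := h2 0 (by omega)
      have e3 : ∀ hs, (φ.app _ (h hs) : Lab (a ↔ b) False k.tail).b r x.tail ↔
          (φ.app _ (h hs) : Lab (a ↔ b) False k.tail).b r y.tail ∧
          (φ.app _ (h hs) : Lab (a ↔ b) False k.tail).b r z.tail := fun hs =>
        Lab.comp _ r _ _ _ j (by omega) (fun i hi => h1 (i + 1) (by omega))
          (fun i hi => h2 (i + 1) (by omega)) h3 h4 h5
      simp only [← e1, ← e2, e3]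
      constructor
      · intro H
        exact ⟨fun hs c0 c1 => (H hs c0 c1).1, fun hs c0 c1 => (H hs c0 c1).2⟩
      · rintro ⟨H1, H2⟩ hs c0 c1
        exact ⟨H1 hs c0 c1, H2 hs c0 c1⟩
  pos r x y hxy hr hb' := by
    match r with
    | 0 =>
      have e : f (x 0).hi = f (y 0).lo := congrArg f hr
      simp only [← e]
      rcases fin2_cases (f (x 0).lo) with h0 | h0
      · rcases fin2_cases (f (x 0).hi) with h1 | h1
        · rw [h0, h1]
        · have h2 := Lab.obj _ _ (hb' (surj_of h0 h1) h0 h1)
          rw [h0, h1]
          simp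
          exact h2
      · have h1 : f (x 0).hi = 1 := by
          have := f.monotone (x 0).le
          rw [h0] at this
          rcases fin2_cases (f (x 0).hi) with h6 | h6
          · rw [h6] at this
            exact absurd this (by decide)
          · exact h6
        rw [h0, h1]
    | r + 1 =>
      have e : x 0 = y 0 := hxy 0 (by omega)
      constructor
      · intro H hs c0 c1
        rw [← e] at c0 c1
        exact (Lab.pos _ r _ _ (fun j hj => hxy (j + 1) (by omega)) hr (hb' hs c0 c1)).1 (H hs c0 c1)
      · intro H hs c0 c1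
        refine (Lab.pos _ r _ _ (fun j hj => hxy (j + 1) (by omega)) hr (hb' hs c0 c1)).2 ?_
        rw [e] at c0 c1
        exact H hs c0 c1
  obj x hx := by
    rcases fin2_cases (f (x 0).lo) with h0 | h0
    · exact ha (hx.1 h0)
    · exact hb (hx.2 h0)
  ord ho' x y hxy hx := by
    have e : f (x 0).hi = f (y 0).lo := congrArg f hxy
    have e2 := f.monotone (x 0).le
    refine ⟨fun h0 => ?_, fun h0 => ?_⟩
    · apply hx.1
      rw [e, h0] at e2
      rcases fin2_cases (f (x 0).lo) with h6 | h6
      · exact h6
      · rw [h6] at e2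
        exact absurd e2 (by decide)
    · rcases fin2_cases (f (x 0).lo) with h6 | h6
      · exact ho ho' (hx.1 h6)
      · exact hx.2 h6

end Pool.Agent.WCI
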