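import Pool.Agent.WCI.Fill

open CategoryTheory Opposite

namespace Pool.Agent.WCI

variable {R o : Prop}

/-- An element of a suspension. -/
def suspPt {A : PSh} {k : Arity} (f : Fin (k.len 0 + 1) →o Fin 2)
    (h : Function.Surjective f → A.obj (op k.tail)) : (susp A).obj (op k) := ⟨f, h⟩

lemma susp_map {A : PSh} {k l : Arity} (g : l ⟶ k) (f : Fin (k.len 0 + 1) →o Fin 2)
    (h : Function.Surjective f → A.obj (op k.tail)) :
    (susp A).map g.op (suspPt f h) =
      suspPt (f.comp (g 0)) (fun hs => A.map (tailMap g).op (h (.of_comp hs))) := rfl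

lemma suspPt_ext {A : PSh} {k : Arity} {f f' : Fin (k.len 0 + 1) →o Fin 2}
    {h : Function.Surjective f → A.obj (op k.tail)} {h' : Function.Surjective f' → A.obj (op k.tail)}
    (e : ∀ t, f t = f' t) (e' : ∀ (hs : Function.Surjective f) (hs' : Function.Surjective f'), h hs = h' hs') :
    suspPt f h = suspPt f' h' := by
  have : f = f' := OrderHom.ext _ _ (funext e)
  subst this
  refine Sigma.ext rfl (heq_of_eq ?_)
  funext hs
  exact e' hs hs

/-- The map from a suspension to `Z` given by two objects and a map to the category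
of arrows between them. -/
def build {A : PSh} {a b : Prop} (ha : a → R) (hb : b → R) (ho : o → a → b)
    (φ : A ⟶ Z (a ↔ b) False) : susp A ⟶ Z R o where
  app k := ↾fun x => buildLab ha hb ho φ x.1 x.2
  naturality k l g := by
    refine ConcreteCategory.hom_ext _ _ fun x => ?_
    apply Lab.ext
    intro r y
    match r with
    | 0 => exact Iff.rfl
    | r + 1 =>
      have key : ∀ (hs : Function.Surjective (x.1.comp (g.unop 0))) (hs' : Function.Surjective x.1),
          (φ.app _ (A.map (tailMap g.unop).op (x.2 (.of_comp hs))) : Lab (a ↔ b) False _).b r y.tail ↔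
          (φ.app _ (x.2 hs') : Lab (a ↔ b) False _).b r (Box.map g.unop y).tail := by
        intro hs hs'
        rw [φ.naturality_apply]
        exact Iff.rfl
      constructor
      · intro H hs c0 c1
        exact (key (surj_of (f := x.1.comp (g.unop 0)) c0 c1) hs).1
          (H (surj_of (f := x.1.comp (g.unop 0)) c0 c1) c0 c1)
      · intro H hs c0 c1
        exact (key hs (.of_comp hs)).2 (H (.of_comp hs) c0 c1)

/-- The zero arity. -/
def ptAr : Arity where
  len _ := 0
  fin := ⟨0, fun _ _ => rfl⟩

/-- A box over the zero arity. -/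
def ptBox : Box ptAr := fun _ => ⟨0, 0, le_rfl⟩

/-- The two objects of a suspension. -/
def vert (A : PSh) (c : Fin 2) : (susp A).obj (op ptAr) :=
  suspPt (k := ptAr) (cstHom (n := 1) c |>.comp ⟨fun _ => 0, fun _ _ _ => le_rfl⟩) (fun hs => by
    exfalso
    obtain ⟨s, hs0⟩ := hs 0
    obtain ⟨t, ht0⟩ := hs 1
    exact absurd (hs0.symm.trans ht0) (by decide))

section
variable {A : PSh} (Φ : susp A ⟶ Z R o)

/-- Label of an object. -/
def objLab (c : Fin 2) : Prop := (Φ.app (op ptAr) (vert A c) : Lab R o ptAr).b 0 ptBox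

lemma nat_lab {k l : Arity} (g : l ⟶ k) (f : Fin (k.len 0 + 1) →o Fin 2)
    (h : Function.Surjective f → A.obj (op k.tail)) (r : ℕ) (x : Box l) :
    (Φ.app (op k) (suspPt f h) : Lab R o k).b r (x.map g) ↔
    (Φ.app (op l) (suspPt (f.comp (g 0)) fun hs => A.map (tailMap g).op (h (.of_comp hs))) :
      Lab R o l).b r x := by
  rw [← susp_map, Φ.naturality_apply]
  exact Iff.rfl

lemma lab_zero {k : Arity} (f : Fin (k.len 0 + 1) →o Fin 2)
    (h : Function.Surjective f → A.obj (op k.tail)) (x : Box k) :
    (Φ.app (op k) (suspPt f h) : Lab R o k).b 0 x ↔ objLab Φ (f (x 0).lo) := by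
  let v : ptAr ⟶ k := fun j => ⟨fun _ => (x j).lo, fun _ _ _ => le_rfl⟩
  rw [(Φ.app (op k) (suspPt f h) : Lab R o k).dep 0 x (ptBox.map v) (by intro j hj; omega) rfl, nat_lab]
  unfold objLab
  have : suspPt (k := ptAr) (f.comp (v 0)) (fun hs => A.map (tailMap v).op (h (.of_comp hs))) =
    vert A (f (x 0).lo) := by
    apply suspPt_ext
    · intro t
      rfl
    · intro hs
      exfalso
      obtain ⟨s, hs0⟩ := hs 0
      obtain ⟨t, ht0⟩ := hs 1
      exact absurd (hs0.symm.trans ht0) (by decide)
  rw [this]

/-- Labels of the category of arrows. -/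
def homLab : A ⟶ Z (objLab Φ 0 ↔ objLab Φ 1) False where
  app k := ↾fun α => {
    b := fun r x => (Φ.app (op (cons1 k.unop)) (suspPt (k := cons1 k.unop) OrderHom.id fun _ => α) :
      Lab R o (cons1 k.unop)).b (r + 1) (consBox x)
    dep := fun r x y h h' => Lab.dep _ _ _ _ (fun j hj => match j, hj with
      | 0, _ => rfl
      | j + 1, hj => h j (by omega)) h'
    refl := fun r x j hj h => Lab.refl _ _ _ (j + 1) (by omega) h
    comp := fun r x y z j hj h1 h2 h3 h4 h5 => Lab.comp _ _ _ _ _ (j + 1) (by omega)
      (fun i hi => match i, hi with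
        | 0, _ => rfl
        | i + 1, hi => h1 i (by omega))
      (fun i hi => match i, hi with
        | 0, _ => rfl
        | i + 1, hi => h2 i (by omega)) h3 h4 h5
    pos := fun r x y h h' hb => Lab.pos _ _ _ _ (fun j hj => match j, hj with
      | 0, _ => rfl
      | j + 1, hj => h j (by omega)) h' hb
    obj := fun x hx => by
      let y : Box (cons1 k.unop) := fun j => match j with
        | 0 => ⟨(1 : Fin 2), (1 : Fin 2), le_rfl⟩
        | j + 1 => x j
      have h1 := Lab.pos _ 0 (consBox x) y (by intro j hj; omega) rfl hx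
      have e1 := lab_zero Φ (k := cons1 k.unop) OrderHom.id (fun _ => α) (consBox x)
      have e2 := lab_zero Φ (k := cons1 k.unop) OrderHom.id (fun _ => α) y
      exact e1.symm.trans (h1.trans e2)
    ord := fun h => h.elim }
  naturality k l g := by
    refine ConcreteCategory.hom_ext _ _ fun α => ?_
    apply Lab.ext
    intro r x
    let m : cons1 l.unop ⟶ cons1 k.unop := fun j => match j with
      | 0 => OrderHom.id
      | j + 1 => g.unop j
    have h1 := nat_lab Φ m OrderHom.id (fun _ => α) (r + 1) (consBox x)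
    have h2 : (consBox x).map m = consBox (x.map g.unop) := by
      funext j
      match j with
      | 0 => rfl
      | j + 1 => rfl
    rw [h2] at h1
    exact h1.symm

lemma lab_succ {k : Arity} (f : Fin (k.len 0 + 1) →o Fin 2)
    (h : Function.Surjective f → A.obj (op k.tail)) (r : ℕ) (x : Box k) :
    (Φ.app (op k) (suspPt f h) : Lab R o k).b (r + 1) x ↔
    ∀ (hs : Function.Surjective f), f (x 0).lo = 0 → f (x 0).hi = 1 →
      ((homLab Φ).app _ (h hs) : Lab (objLab Φ 0 ↔ objLab Φ 1) False k.tail).b r x.tail := by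
  let m : cons1 k.tail ⟶ k := fun j => match j with
    | 0 => stepHom (x 0).lo (x 0).hi (x 0).le
    | j + 1 => OrderHom.id
  have hm : (consBox x.tail).map m = x := by
    funext j
    match j with
    | 0 => rfl
    | j + 1 => rfl
  have h1 := nat_lab Φ m f h (r + 1) (consBox x.tail)
  rw [hm] at h1
  rw [h1]
  have htm : tailMap m = 𝟙 _ := rfl
  by_cases hc : f (x 0).lo = 0 ∧ f (x 0).hi = 1
  · obtain ⟨c0, c1⟩ := hc
    have hs := surj_of c0 c1
    have h2 : suspPt (k := cons1 k.tail) (f.comp (m 0)) (fun hs => A.map (tailMap m).op (h (.of_comp hs))) =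
        suspPt (k := cons1 k.tail) OrderHom.id (fun _ => h hs) := by
      apply suspPt_ext
      · intro t
        rcases fin2_cases t with rfl | rfl
        · exact c0
        · exact c1
      · intro hs' _
        exact A.map_id_apply _ (h hs)
    rw [h2]
    constructor
    · intro H _ _ _
      exact H
    · intro H
      exact H hs c0 c1
  · refine iff_of_true ?_ (fun _ c0 c1 => absurd ⟨c0, c1⟩ hc)
    let γ : cons1 k.tail ⟶ cons1 k.tail := fun j => match j with
      | 0 => ⟨fun _ => (0 : Fin 2), fun _ _ _ => le_rfl⟩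
      | j + 1 => OrderHom.id
    have e : f (x 0).lo = f (x 0).hi := by
      have := f.monotone (x 0).le
      rcases fin2_cases (f (x 0).lo) with h6 | h6 <;> rcases fin2_cases (f (x 0).hi) with h7 | h7
      · rw [h6, h7]
      · exact absurd ⟨h6, h7⟩ hc
      · rw [h6, h7] at this
        exact absurd this (by decide)
      · rw [h6, h7]
    have h2 : suspPt (k := cons1 k.tail) (f.comp (m 0)) (fun hs => A.map (tailMap m).op (h (.of_comp hs))) =
        suspPt (k := cons1 k.tail) ((f.comp (m 0)).comp (γ 0)) (fun hs =>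
          A.map (tailMap γ).op (A.map (tailMap m).op (h (.of_comp (Function.Surjective.of_comp hs))))) := by
      apply suspPt_ext
      · intro t
        rcases fin2_cases t with rfl | rfl
        · rfl
        · exact e.symm
      · intro hs' _
        exact (A.map_id_apply _ _).symm
    rw [h2]
    exact (nat_lab Φ γ (f.comp (m 0)) (fun hs => A.map (tailMap m).op (h (.of_comp hs))) (r + 1)
      (consBox x.tail)).1 (Lab.refl _ _ _ 0 (by omega) rfl)

end

end Pool.Agent.WCI
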