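import Pool.Agent.WCI.Fill2

open CategoryTheory Opposite

namespace Pool.Agent.WCI

variable {R o : Prop}

/-- Constantly false objects. -/
def botLab (R o : Prop) (k : Arity) : Lab R o k where
  b r _ := r ≠ 0
  dep _ _ _ _ _ := Iff.rfl
  refl r _ j hj _ := by omega
  comp _ _ _ _ _ _ _ _ _ _ _ := by simp
  pos _ _ _ _ _ _ := Iff.rfl
  obj _ h := absurd rfl h
  ord _ _ _ _ h := h

/-- The constantly true labelling. -/
def topLab (k : Arity) : Lab True o k where
  b _ _ := True
  dep _ _ _ _ _ := Iff.rfl
  refl _ _ _ _ _ := trivial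
  comp _ _ _ _ _ _ _ _ _ _ _ := by simp
  pos _ _ _ _ _ _ := Iff.rfl
  obj _ _ := trivial
  ord _ _ _ _ h := h

/-- Map with constant value the object labelled `False`. -/
def botMap (A : PSh) : A ⟶ Z R o where
  app k := ↾fun _ => botLab R o k.unop

/-- Map with constant value the object labelled `True`. -/
def topMap (A : PSh) : A ⟶ Z True o where
  app k := ↾fun _ => topLab k.unop

/-- Every map from the boundary of a globe to `Z` extends to the globe, in a way which is not
constantly true. -/
lemma exists_filler (n : ℕ) : ∀ (R : Prop) (φ : bdry n ⟶ Z R False), ∃ ψ : globe n ⟶ Z R False,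
    globeInc n ≫ ψ = φ ∧ ∃ (k : Arity) (α : (globe n).obj (op k)) (r : ℕ) (x : Box k),
      ¬ (ψ.app (op k) α : Lab R False k).b r x := by
  induction n with
  | zero =>
    intro R φ
    refine ⟨botMap _, ?_, ptAr, PUnit.unit, 0, ptBox, fun h => h rfl⟩
    refine NatTrans.ext (funext fun k => ConcreteCategory.hom_ext _ _ fun x => ?_)
    exact PEmpty.elim x
  | succ n ih =>
    intro R φ
    obtain ⟨ψ', h1, k, α, r, x, hx⟩ := ih _ (homLab φ)
    refine ⟨build (a := objLab φ 0) (b := objLab φ 1) (Lab.obj _ _) (Lab.obj _ _) (fun h => h.elim) ψ',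
      ?_, cons1 k, suspPt (k := cons1 k) OrderHom.id fun _ => α, r + 1, consBox x, ?_⟩
    · refine NatTrans.ext (funext fun l => ConcreteCategory.hom_ext _ _ fun y => ?_)
      apply Lab.ext
      intro s z
      match s with
      | 0 =>
        have e := lab_zero φ (k := l.unop) y.1 y.2 z
        refine Iff.trans ?_ e.symm
        change ((y.1 (z 0).lo = 0 → _) ∧ (y.1 (z 0).lo = 1 → _)) ↔ _
        rcases fin2_cases (y.1 (z 0).lo) with h | h
        · rw [h]
          simp
        · rw [h]
          simp
      | s + 1 =>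
        have e := lab_succ φ (k := l.unop) y.1 y.2 s z
        refine Iff.trans ?_ e.symm
        rw [← h1]
        exact Iff.rfl
    · intro h
      exact hx (h Function.surjective_id rfl rfl)

end Pool.Agent.WCI
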