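import Pool.Agent.WCI.Discrete3

open CategoryTheory Opposite

namespace Pool.Agent.WCI

/-- An interval of `{0, …, n}`. -/
@[ext]
structure Iv (n : ℕ) where
  lo : Fin (n + 1)
  hi : Fin (n + 1)
  le : lo ≤ hi

/-- Image of an interval. -/
def Iv.map {m n : ℕ} (f : Fin (m + 1) →o Fin (n + 1)) (x : Iv m) : Iv n :=
  ⟨f x.lo, f x.hi, f.monotone x.le⟩

/-- A box: an interval in each direction. -/
def Box (k : Arity) := ∀ j, Iv (k.len j)

/-- Image of a box. -/
def Box.map {k l : Arity} (f : k ⟶ l) (x : Box k) : Box l := fun j => (x j).map (f j)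

/-- The labellings of the cells of the grid `k`. -/
structure Lab (R o : Prop) (k : Arity) where
  b : ℕ → Box k → Prop
  dep : ∀ r x y, (∀ j < r, x j = y j) → (x r).lo = (y r).lo → (b r x ↔ b r y)
  refl : ∀ r x j, j < r → (x j).lo = (x j).hi → b r x
  comp : ∀ r (x y z : Box k) j, j < r → (∀ i, i ≠ j → x i = y i) → (∀ i, i ≠ j → x i = z i) →
    (x j).lo = (y j).lo → (y j).hi = (z j).lo → (z j).hi = (x j).hi → (b r x ↔ b r y ∧ b r z)
  pos : ∀ r x y, (∀ j < r, x j = y j) → (x r).hi = (y r).lo → b (r + 1) x → (b r x ↔ b r y)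
  obj : ∀ x, b 0 x → R
  ord : o → ∀ x y, (x 0).hi = (y 0).lo → b 0 x → b 0 y

variable {R o : Prop}

@[ext]
lemma Lab.ext {k : Arity} {B B' : Lab R o k} (h : ∀ r x, B.b r x ↔ B'.b r x) : B = B' := by
  have : B.b = B'.b := funext fun r => funext fun x => propext (h r x)
  cases B
  cases B'
  cases this
  rfl

/-- Restriction of labellings. -/
def Lab.map {k l : Arity} (f : k ⟶ l) (B : Lab R o l) : Lab R o k where
  b r x := B.b r (x.map f)
  dep r x y h h' := B.dep r _ _ (fun j hj => by simp only [Box.map, h j hj]) (congrArg (f r) h')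
  refl r x j hj h := B.refl r _ j hj (congrArg (f j) h)
  comp r x y z j hj h1 h2 h3 h4 h5 := B.comp r _ _ _ j hj (fun i hi => by simp only [Box.map, h1 i hi])
    (fun i hi => by simp only [Box.map, h2 i hi]) (congrArg (f j) h3) (congrArg (f j) h4) (congrArg (f j) h5)
  pos r x y h h' := B.pos r _ _ (fun j hj => by simp only [Box.map, h j hj]) (congrArg (f r) h')
  obj x h := B.obj _ h
  ord ho x y h := B.ord ho _ _ (congrArg (f 0) h)

/-- The gaunt `∞`-category `Z`. Its cells of each dimension have a label `True` or `False`, identities being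
labelled `True`; there is exactly one cell labelled `False` between any two parallel
cells, and there is one labelled `True` if they are equal. -/
def Z (R o : Prop) : PSh where
  obj k := Lab R o k.unop
  map f := ↾fun B => B.map f.unop

/-- Criterion for unique extension along subfunctors of representables. -/
lemma bij_subfunctor {k : Arity} (S : Subfunctor (yoneda.obj k)) (W : PSh)
    (inj : ∀ b b' : W.obj (op k), (∀ (l : Arity) (g : l ⟶ k), g ∈ S.obj (op l) →
      W.map g.op b = W.map g.op b') → b = b')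
    (surj : ∀ φ : S.toFunctor ⟶ W, ∃ b : W.obj (op k), ∀ (l : Arity) (g : l ⟶ k) (hg : g ∈ S.obj (op l)),
      W.map g.op b = φ.app (op l) ⟨g, hg⟩) :
    Function.Bijective (fun φ : yoneda.obj k ⟶ W => S.ι ≫ φ) := by
  have key : ∀ (φ : yoneda.obj k ⟶ W) (l : Arity) (g : l ⟶ k),
      φ.app (op l) g = W.map g.op (φ.app (op k) (𝟙 k)) := by
    intro φ l g
    rw [← φ.naturality_apply]
    congr 1
  constructor
  · intro φ φ' h
    have h1 : φ.app (op k) (𝟙 k) = φ'.app (op k) (𝟙 k) := by
      apply inj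
      intro l g hg
      rw [← key, ← key]
      exact ConcreteCategory.congr_hom (NatTrans.congr_app h (op l)) ⟨g, hg⟩
    refine NatTrans.ext (funext fun l => ConcreteCategory.hom_ext _ _ fun g => ?_)
    exact (key φ l.unop g).trans ((congrArg _ h1).trans (key φ' l.unop g).symm)
  · intro φ
    obtain ⟨b, hb⟩ := surj φ
    refine ⟨yonedaEquiv.symm b, ?_⟩
    refine NatTrans.ext (funext fun l => ConcreteCategory.hom_ext _ _ fun g => ?_)
    exact hb l.unop g.1 g.2

lemma sub_nat {k : Arity} {S : Subfunctor (yoneda.obj k)} {W : PSh} (φ : S.toFunctor ⟶ W)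
    {l m : Arity} (f : m ⟶ l) (g : l ⟶ k) (g' : m ⟶ k) (hg : g ∈ S.obj (op l)) (hg' : g' ∈ S.obj (op m))
    (h : f ≫ g = g') : W.map f.op (φ.app (op l) ⟨g, hg⟩) = φ.app (op m) ⟨g', hg'⟩ := by
  subst h
  exact (φ.naturality_apply f.op ⟨g, hg⟩).symm

lemma Lab.congr {k : Arity} {B B' : Lab R o k} (h : B = B') (r : ℕ) (x : Box k) :
    B.b r x ↔ B'.b r x := by rw [h]

lemma Z_essConst (k : Arity) (i : ℕ) (hi : k.len i = 0) :
    Function.Bijective (fun φ : yoneda.obj k ⟶ Z R o => (bottom k i).ι ≫ φ) := by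
  let ρ : k ⟶ k := fun j => if j ≤ i then OrderHom.id else ⟨fun _ => 0, fun _ _ _ => le_rfl⟩
  have hρ1 : ∀ (x : Box k) j, j ≤ i → (x.map ρ) j = x j := by
    intro x j hj
    simp only [Box.map, ρ, if_pos hj]
    rfl
  have hρ2 : ∀ j, i < j → ∀ t, ρ j t = 0 := by
    intro j hj t
    simp only [ρ, if_neg (not_le.mpr hj)]
    rfl
  have hρ : ρ ∈ (bottom k i).obj (op k) := hρ2
  apply bij_subfunctor
  · intro B B' h
    apply Lab.ext
    intro r x
    by_cases hr : r ≤ i
    · have h1 : B.map ρ = B'.map ρ := h k ρ hρ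
      rw [B.dep r x (x.map ρ) (fun j hj => (hρ1 x j (by omega)).symm) (by rw [hρ1 x r hr]),
        B'.dep r x (x.map ρ) (fun j hj => (hρ1 x j (by omega)).symm) (by rw [hρ1 x r hr])]
      exact Lab.congr h1 r x
    · have h2 : (x i).lo = (x i).hi := by
        apply Fin.ext
        have h3 : (x i).lo.val < k.len i + 1 := (x i).lo.2
        have h4 : (x i).hi.val < k.len i + 1 := (x i).hi.2
        omega
      exact iff_of_true (B.refl r x i (by omega) h2) (B'.refl r x i (by omega) h2)
  · intro φ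
    refine ⟨φ.app (op k) ⟨ρ, hρ⟩, fun l g hg => ?_⟩
    apply sub_nat φ g ρ g hρ hg
    funext j
    apply OrderHom.ext
    funext t
    change ρ j (g j t) = g j t
    by_cases hj : j ≤ i
    · simp only [ρ, if_pos hj]
      rfl
    · rw [hρ2 j (by omega)]
      exact (hg j (by omega) t).symm

end Pool.Agent.WCI
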