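import Pool.Agent.WCI.Zsegal

open CategoryTheory Opposite

namespace Pool.Agent.WCI

variable {R o : Prop}

section
variable {N : Arity} {i : ℕ} (Y₀ : Box N)

/-- Change the `i`-th interval of `Y₀`. -/
def setI (a b : Fin (N.len i + 1)) (h : a ≤ b) : Box N := Function.update Y₀ i ⟨a, b, h⟩

lemma setI_self (a b : Fin (N.len i + 1)) (h : a ≤ b) : setI Y₀ a b h i = ⟨a, b, h⟩ :=
  Function.update_self _ _ _

lemma setI_ne (a b : Fin (N.len i + 1)) (h : a ≤ b) {j : ℕ} (hj : j ≠ i) : setI Y₀ a b h j = Y₀ j :=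
  Function.update_of_ne hj _ _

lemma setI_map (a b : Fin (N.len i + 1)) (h : a ≤ b) (f : Fin (N.len i + 1) →o Fin (N.len i + 1)) :
    (setI Y₀ a b h).map (modif N i f) = setI Y₀ (f a) (f b) (f.monotone h) := by
  funext j
  by_cases hj : j = i
  · subst hj
    rw [map_modif_self, setI_self, setI_self]
    rfl
  · rw [map_modif_ne _ hj, setI_ne _ _ _ _ hj, setI_ne _ _ _ _ hj]

/-- `0 ↦ a`, other elements `↦ b`. -/
def stepHom {n m : ℕ} (a b : Fin (m + 1)) (h : a ≤ b) : Fin (n + 1) →o Fin (m + 1) :=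
  ⟨fun t => if t.val = 0 then a else b, by
    intro s t hst
    by_cases ht : t.val = 0
    · have hs : s.val = 0 := by
        have : s.val ≤ t.val := hst
        omega
      simp [hs, ht]
    · by_cases hs : s.val = 0
      · simp [hs, ht, h]
      · simp [hs, ht]⟩

lemma stepHom_zero {n m : ℕ} (a b : Fin (m + 1)) (h : a ≤ b) (t : Fin (n + 1)) (ht : t.val = 0) :
    stepHom a b h t = a := if_pos ht

lemma stepHom_pos {n m : ℕ} (a b : Fin (m + 1)) (h : a ≤ b) (t : Fin (n + 1)) (ht : t.val ≠ 0) :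
    stepHom a b h t = b := if_neg ht

lemma complete_key (hN : N.len i = 2) (F : (Fin (N.len i + 1) → Bool) → Lab R o N)
    (hF : ∀ (ε : Fin (N.len i + 1) → Bool) (f : Fin (N.len i + 1) →o Fin (N.len i + 1)),
      F (fun t => ε (f t)) = (F ε).map (modif N i f))
    (r : ℕ) (ε : Fin (N.len i + 1) → Bool) (e0 e1 : Fin (N.len i + 1)) (h0 : e0.val = 0) (h1 : e1.val = 1)
    (h01 : e0 ≤ e1) :
    (F ε).b r (setI Y₀ e0 e1 h01) ↔ (F fun _ => false).b r (setI Y₀ e0 e1 h01) := by
  have A : ∀ (ε ε' : Fin (N.len i + 1) → Bool) (f : Fin (N.len i + 1) →o Fin (N.len i + 1))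
      (a b : Fin (N.len i + 1)) (h : a ≤ b) (a' b' : Fin (N.len i + 1)) (h' : a' ≤ b') (r : ℕ),
      (ε' = fun t => ε (f t)) → f a = a' → f b = b' →
      ((F ε').b r (setI Y₀ a b h) ↔ (F ε).b r (setI Y₀ a' b' h')) := by
    rintro ε _ f a b h _ _ h' r rfl rfl rfl
    rw [hF, ← setI_map]
    rfl
  have C : ∀ (ε : Fin (N.len i + 1) → Bool) (a b : Fin (N.len i + 1)) (h : a ≤ b) (r : ℕ), i < r → a = b → (F ε).b r (setI Y₀ a b h) := by
    rintro ε a b h r hr rfl
    refine (F ε).refl r _ i hr ?_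
    rw [setI_self]
  obtain ⟨e2, h2⟩ : ∃ e2 : Fin (N.len i + 1), e2.val = 2 := ⟨⟨2, by omega⟩, rfl⟩
  have h12 : e1 ≤ e2 := by
    change e1.val ≤ e2.val
    omega
  have h02 : e0 ≤ e2 := h01.trans h12
  have h10 : e1 ≠ e0 := fun h => by rw [h] at h1; omega
  -- above dimension `i` all labels are true
  have C1 : ∀ (ε : Fin (N.len i + 1) → Bool) r, i < r → (F ε).b r (setI Y₀ e0 e1 h01) := by
    intro ε r hr
    let ζ : Fin (N.len i + 1) → Bool := fun t => if t.val = 1 then ε e1 else ε e0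
    have s1 : (F fun t => ε (stepHom e0 e1 h01 t)) = F fun t => ζ (stepHom e0 e1 h01 t) := by
      congr 1
      funext t
      by_cases ht : t.val = 0
      · simp only [stepHom_zero _ _ _ _ ht, ζ, h0]
        simp
      · simp only [stepHom_pos _ _ _ _ ht, ζ, h1]
        simp
    have x0 : stepHom e0 e1 h01 e0 = e0 := stepHom_zero _ _ _ _ h0
    have x1 : stepHom e0 e1 h01 e1 = e1 := stepHom_pos _ _ _ _ (by omega)
    have s2 := A ε _ (stepHom e0 e1 h01) e0 e1 h01 _ _ h01 r rfl x0 x1
    have s3 := A ζ _ (stepHom e0 e1 h01) e0 e1 h01 _ _ h01 r rfl x0 x1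
    rw [s1] at s2
    have s4 := s2.symm.trans s3
    rw [s4]
    -- composite
    have s5 := (F ζ).comp r (setI Y₀ e0 e2 h02) (setI Y₀ e0 e1 h01) (setI Y₀ e1 e2 h12) i hr
      (fun j hj => by rw [setI_ne _ _ _ _ hj, setI_ne _ _ _ _ hj])
      (fun j hj => by rw [setI_ne _ _ _ _ hj, setI_ne _ _ _ _ hj])
      (by rw [setI_self, setI_self]) (by rw [setI_self, setI_self]) (by rw [setI_self, setI_self])
    refine (s5.1 ?_).1
    have x0 : stepHom e0 e2 h02 e0 = e0 := stepHom_zero _ _ _ _ h0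
    have x1 : stepHom e0 e2 h02 e1 = e2 := stepHom_pos _ _ _ _ (by omega)
    have s6 := A ζ _ (stepHom e0 e2 h02) e0 e1 h01 _ _ h02 r rfl x0 x1
    rw [← s6]
    have s7 : (F fun t => ζ (stepHom e0 e2 h02 t)) = F fun t => ζ (cstHom e0 t) := by
      congr 1
      funext t
      by_cases ht : t.val = 0
      · simp only [stepHom_zero _ _ _ _ ht, cstHom_apply]
      · simp only [stepHom_pos _ _ _ _ ht, cstHom_apply, ζ, h0, h2]
        simp
    rw [s7, A ζ _ (cstHom e0) e0 e1 h01 e0 e0 le_rfl r rfl rfl rfl]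
    exact C ζ _ _ _ r hr rfl
  by_cases hr : i < r
  · exact iff_of_true (C1 _ r hr) (C1 _ r hr)
  · have D : ∀ (ε : Fin (N.len i + 1) → Bool) (a b : Fin (N.len i + 1)) (h : a ≤ b) (b' : Fin (N.len i + 1))
        (h' : a ≤ b'), (F ε).b r (setI Y₀ a b h) ↔
        (F ε).b r (setI Y₀ a b' h') := by
      intro ε a b h b' h'
      refine (F ε).dep r _ _ (fun j hj => ?_) ?_
      · rw [setI_ne _ _ _ _ (by omega), setI_ne _ _ _ _ (by omega)]
      · by_cases hri : r = i
        · subst hri
          rw [setI_self, setI_self]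
        · rw [setI_ne _ _ _ _ hri, setI_ne _ _ _ _ hri]
    let ζ : Fin (N.len i + 1) → Bool := fun t => if t.val = 0 then ε e0 else false
    have E : (F ζ).b r (setI Y₀ e0 e0 le_rfl) ↔ (F ζ).b r (setI Y₀ e1 e1 le_rfl) := by
      rcases (not_lt.mp hr).eq_or_lt with hri | hri
      · subst hri
        rw [D ζ e0 e0 le_rfl e1 h01]
        exact (F ζ).pos r _ _ (fun j hj => by rw [setI_ne _ _ _ _ (by omega), setI_ne _ _ _ _ (by omega)])
          (by rw [setI_self, setI_self]) (C1 ζ (r + 1) (by omega))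
      · refine (F ζ).dep r _ _ (fun j hj => ?_) ?_
        · rw [setI_ne _ _ _ _ (by omega), setI_ne _ _ _ _ (by omega)]
        · rw [setI_ne _ _ _ _ (by omega), setI_ne _ _ _ _ (by omega)]
    have t1 := A ε _ (cstHom e0) e0 e1 h01 e0 e0 le_rfl r rfl rfl rfl
    have t2 := A ζ (fun t => ε (cstHom e0 t)) (cstHom e0) e0 e1 h01 e0 e0 le_rfl r (by
      funext t
      simp only [cstHom_apply, ζ, h0, if_true]) rfl rfl
    have t3 := A ζ (fun _ => false) (cstHom e1) e0 e1 h01 e1 e1 le_rfl r (by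
      funext t
      simp only [cstHom_apply, ζ, h1]
      simp) rfl rfl
    rw [t3, ← E, ← t2, t1]
    exact D ε _ _ _ _ _

end

/-- An arity with `s` two's. -/
def twos (s : ℕ) : Arity where
  len j := if j < s then 2 else 0
  fin := ⟨s, fun i hi => if_neg (by omega)⟩

lemma twos_len {s j : ℕ} (h : j < s) : (twos s).len j = 2 := if_pos h

/-- An element of the walking isomorphism times `k`. -/
def isoPt {k : Arity} {i : ℕ} {l : Arity} (g : l ⟶ k) (ε : Fin (l.len i + 1) → Bool) :
    (isoNerve k i).obj (op l) := (g, ε)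

lemma iso_nat {k : Arity} {i : ℕ} {W : PSh} (φ : isoNerve k i ⟶ W) {l m : Arity} (f : m ⟶ l)
    (g : l ⟶ k) (ε : Fin (l.len i + 1) → Bool) :
    W.map f.op (φ.app (op l) (isoPt g ε)) = φ.app (op m) (isoPt (f ≫ g) (fun t => ε (f i t))) :=
  (φ.naturality_apply f.op (isoPt g ε)).symm

lemma Z_complete (k : Arity) (i : ℕ) (hi : k.len i = 0) :
    Function.Bijective (fun φ : isoNerve k i ⟶ Z R o => isoNerveInc k i ≫ φ) := by
  have key : ∀ (φ : isoNerve k i ⟶ Z R o) (l : Arity) (g : l ⟶ k) (ε : Fin (l.len i + 1) → Bool),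
      φ.app (op l) (isoPt g ε) = φ.app (op l) (isoPt g fun _ => false) := by
    intro φ l g ε
    apply Lab.ext
    intro r x
    obtain ⟨s, hs1, hs2⟩ : ∃ s, r < s ∧ i < s := ⟨max r i + 1, by omega, by omega⟩
    let θ : twos s ⟶ l := fun j => stepHom (x j).lo (x j).hi (x j).le
    have hlen : (twos s).len i = 2 := twos_len hs2
    let Y₀ : Box (twos s) := fun j => ⟨⟨0, by omega⟩, ⟨min 1 ((twos s).len j), by omega⟩,
      Fin.mk_le_mk.mpr (by omega)⟩
    let e0 : Fin ((twos s).len i + 1) := ⟨0, by omega⟩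
    let e1 : Fin ((twos s).len i + 1) := ⟨1, by omega⟩
    have h01 : e0 ≤ e1 := Fin.mk_le_mk.mpr (by omega)
    have hθ : ∀ (η : Fin (l.len i + 1) → Bool),
        (φ.app (op l) (isoPt g η) : Lab R o l).b r x ↔
        (φ.app (op (twos s)) (isoPt (θ ≫ g) fun t => η (θ i t)) : Lab R o (twos s)).b r
          (setI Y₀ e0 e1 h01) := by
      intro η
      have h1 := iso_nat φ θ g η
      rw [← h1]
      have h2 : ∀ j < s, ((setI Y₀ e0 e1 h01).map θ) j =
          x j := by
        intro j hj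
        have hlenj : (twos s).len j = 2 := twos_len hj
        by_cases hji : j = i
        · subst hji
          apply Iv.ext
          · change θ j _ = _
            rw [setI_self]
            exact stepHom_zero _ _ _ _ rfl
          · change θ j _ = _
            rw [setI_self]
            exact stepHom_pos _ _ _ _ one_ne_zero
        · apply Iv.ext
          · change θ j _ = _
            rw [setI_ne _ _ _ _ hji]
            exact stepHom_zero _ _ _ _ rfl
          · change θ j _ = _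
            rw [setI_ne _ _ _ _ hji]
            exact stepHom_pos _ _ _ _ (by change min 1 ((twos s).len j) ≠ 0; omega)
      exact ((φ.app (op l) (isoPt g η) : Lab R o l).dep r _ _ (fun j hj => h2 j (by omega))
        (congrArg Iv.lo (h2 r hs1))).symm
    refine (hθ ε).trans (Iff.trans ?_ (hθ fun _ => false).symm)
    refine complete_key Y₀ hlen (fun η => (φ.app (op (twos s)) (isoPt (θ ≫ g) η) : Lab R o (twos s))) ?_ r _ _ _
      rfl rfl _
    intro η f
    have h1 := iso_nat φ (modif (twos s) i f) (θ ≫ g) η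
    refine Eq.trans ?_ h1.symm
    have h2 : modif (twos s) i f ≫ (θ ≫ g) = θ ≫ g := by
      funext j
      by_cases hji : j = i
      · subst hji
        apply OrderHom.ext
        funext t
        apply Fin.ext
        have a1 := ((modif (twos s) j f ≫ θ ≫ g) j t).2
        have a2 := ((θ ≫ g) j t).2
        omega
      · change (g j).comp ((θ j).comp (modif (twos s) i f j)) = (g j).comp (θ j)
        rw [modif_ne hji]
        rfl
    rw [h2, modif_self]
  constructor
  · intro φ φ' h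
    refine NatTrans.ext (funext fun l => ConcreteCategory.hom_ext _ _ fun x => ?_)
    refine (key φ l.unop x.1 x.2).trans (Eq.trans ?_ (key φ' l.unop x.1 x.2).symm)
    exact ConcreteCategory.congr_hom (NatTrans.congr_app h l) x.1
  · intro φ
    let p : isoNerve k i ⟶ yoneda.obj k := { app := fun _ => ↾fun x => x.1 }
    exact ⟨p ≫ φ, rfl⟩

/-- `Z` is an `(∞,∞)`-category. -/
theorem Z_isInfCat (R o : Prop) : IsInfCat (disc.obj (Z R o)) :=
  isInfCat_disc Z_segal Z_essConst fun k i h => Z_complete k i (h i le_rfl)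

end Pool.Agent.WCI
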