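import Pool.Agent.WCI.Zcat

open CategoryTheory Opposite

namespace Pool.Agent.WCI

variable {R o : Prop}

/-- Modify one coordinate of the identity. -/
def modif (k : Arity) (i : ℕ) (f : Fin (k.len i + 1) →o Fin (k.len i + 1)) : k ⟶ k :=
  Function.update (fun _ => OrderHom.id) i f

variable {k : Arity} {i : ℕ} {f : Fin (k.len i + 1) →o Fin (k.len i + 1)}

lemma modif_self : modif k i f i = f := Function.update_self _ _ _

lemma modif_ne {j : ℕ} (h : j ≠ i) : modif k i f j = OrderHom.id := Function.update_of_ne h _ _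

lemma map_modif_self (x : Box k) : x.map (modif k i f) i = (x i).map f := by
  simp only [Box.map, modif_self]

lemma map_modif_ne (x : Box k) {j : ℕ} (h : j ≠ i) : x.map (modif k i f) j = x j := by
  simp only [Box.map, modif_ne h]
  rfl

lemma comp_modif {l : Arity} (g : l ⟶ k) (h : ∀ t, f (g i t) = g i t) : g ≫ modif k i f = g := by
  funext j
  apply OrderHom.ext
  funext t
  change modif k i f j (g j t) = g j t
  by_cases hj : j = i
  · subst hj
    rw [modif_self]
    exact h t
  · rw [modif_ne hj]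
    rfl

lemma map_modif_eq (x : Box k) (h1 : f (x i).lo = (x i).lo) (h2 : f (x i).hi = (x i).hi) :
    x.map (modif k i f) = x := by
  funext j
  by_cases hj : j = i
  · subst hj
    rw [map_modif_self]
    exact Iv.ext h1 h2
  · exact map_modif_ne x hj

/-- `min · c` -/
def minHom {n : ℕ} (c : Fin (n + 1)) : Fin (n + 1) →o Fin (n + 1) :=
  ⟨fun t => min t c, fun _ _ h => min_le_min_right c h⟩

/-- `max · c` -/
def maxHom {n : ℕ} (c : Fin (n + 1)) : Fin (n + 1) →o Fin (n + 1) :=
  ⟨fun t => max t c, fun _ _ h => max_le_max_right c h⟩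

/-- constant map -/
def cstHom {n : ℕ} (c : Fin (n + 1)) : Fin (n + 1) →o Fin (n + 1) :=
  ⟨fun _ => c, fun _ _ _ => le_rfl⟩

lemma minHom_apply {n : ℕ} (c t : Fin (n + 1)) : minHom c t = min t c := rfl
lemma maxHom_apply {n : ℕ} (c t : Fin (n + 1)) : maxHom c t = max t c := rfl
lemma cstHom_apply {n : ℕ} (c t : Fin (n + 1)) : cstHom c t = c := rfl

lemma mem_cut_min (c : Fin (k.len i + 1)) : modif k i (minHom c) ∈ (cut k i c).obj (op k) := by
  refine Or.inl fun t => ?_
  rw [modif_self]
  exact min_le_right _ _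

lemma mem_cut_max (c : Fin (k.len i + 1)) : modif k i (maxHom c) ∈ (cut k i c).obj (op k) := by
  refine Or.inr fun t => ?_
  rw [modif_self]
  exact le_max_right _ _

lemma mem_cut_cst (c : Fin (k.len i + 1)) : modif k i (cstHom c) ∈ (cut k i c).obj (op k) := by
  refine Or.inl fun t => ?_
  rw [modif_self]
  exact le_rfl

lemma Z_segal_inj (k : Arity) (i : ℕ) (c : Fin (k.len i + 1)) (B B' : Lab R o k)
    (h1 : B.map (modif k i (minHom c)) = B'.map (modif k i (minHom c)))
    (h2 : B.map (modif k i (maxHom c)) = B'.map (modif k i (maxHom c))) : B = B' := by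
  have e1 : ∀ r x, (x i).hi ≤ c → (B.b r x ↔ B'.b r x) := by
    intro r x hx
    have h3 : x.map (modif k i (minHom c)) = x :=
      map_modif_eq x (min_eq_left ((x i).le.trans hx)) (min_eq_left hx)
    have h4 := Lab.congr h1 r x
    change B.b r (x.map _) ↔ B'.b r (x.map _) at h4
    rwa [h3] at h4
  have e2 : ∀ r x, c ≤ (x i).lo → (B.b r x ↔ B'.b r x) := by
    intro r x hx
    have h3 : x.map (modif k i (maxHom c)) = x :=
      map_modif_eq x (max_eq_left hx) (max_eq_left (hx.trans (x i).le))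
    have h4 := Lab.congr h2 r x
    change B.b r (x.map _) ↔ B'.b r (x.map _) at h4
    rwa [h3] at h4
  apply Lab.ext
  intro r x
  by_cases hr : i < r
  · rcases le_total (x i).hi c with h | h
    · exact e1 r x h
    rcases le_total c (x i).lo with h' | h'
    · exact e2 r x h'
    let y : Box k := Function.update x i ⟨(x i).lo, c, h'⟩
    let z : Box k := Function.update x i ⟨c, (x i).hi, h⟩
    have hyi : y i = ⟨(x i).lo, c, h'⟩ := Function.update_self _ _ _
    have hzi : z i = ⟨c, (x i).hi, h⟩ := Function.update_self _ _ _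
    have a1 : ∀ j, j ≠ i → x j = y j := fun j hj => (Function.update_of_ne hj _ _).symm
    have a2 : ∀ j, j ≠ i → x j = z j := fun j hj => (Function.update_of_ne hj _ _).symm
    rw [B.comp r x y z i hr a1 a2 (by rw [hyi]) (by rw [hyi, hzi]) (by rw [hzi]),
      B'.comp r x y z i hr a1 a2 (by rw [hyi]) (by rw [hyi, hzi]) (by rw [hzi]),
      e1 r y (by rw [hyi]), e2 r z (by rw [hzi])]
  · let y : Box k := Function.update x i ⟨(x i).lo, (x i).lo, le_rfl⟩
    have hyi : y i = ⟨(x i).lo, (x i).lo, le_rfl⟩ := Function.update_self _ _ _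
    have a1 : ∀ j, j ≠ i → x j = y j := fun j hj => (Function.update_of_ne hj _ _).symm
    have a2 : ∀ j < r, x j = y j := fun j hj => a1 j (by omega)
    have a3 : (x r).lo = (y r).lo := by
      by_cases hri : r = i
      · subst hri
        rw [hyi]
      · rw [a1 r hri]
    rw [B.dep r x y a2 a3, B'.dep r x y a2 a3]
    rcases le_total c (x i).lo with h' | h'
    · exact e2 r y (by rw [hyi]; exact h')
    · exact e1 r y (by rw [hyi]; exact h')

lemma Z_segal_surj (k : Arity) (i : ℕ) (c : Fin (k.len i + 1)) (B₁ B₂ : Lab R o k)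
    (F1 : B₁.map (modif k i (minHom c)) = B₁) (F2 : B₂.map (modif k i (maxHom c)) = B₂)
    (G : B₁.map (modif k i (cstHom c)) = B₂.map (modif k i (cstHom c))) :
    ∃ B : Lab R o k, (∀ r (x : Box k), (x i).hi ≤ c → (B.b r x ↔ B₁.b r x)) ∧
      (∀ r (x : Box k), c ≤ (x i).lo → (B.b r x ↔ B₂.b r x)) := by
  have G' : ∀ r (x : Box k), r ≤ i → (r = i → (x i).lo = c) → (B₁.b r x ↔ B₂.b r x) := by
    intro r x hr hx
    have a1 : ∀ j < r, x j = x.map (modif k i (cstHom c)) j := fun j hj =>
      (map_modif_ne x (by omega)).symm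
    have a2 : (x r).lo = (x.map (modif k i (cstHom c)) r).lo := by
      by_cases hri : r = i
      · subst hri
        rw [map_modif_self, hx rfl]
        rfl
      · rw [map_modif_ne x hri]
    rw [B₁.dep r _ _ a1 a2, B₂.dep r _ _ a1 a2]
    exact Lab.congr G r x
  have T1 : ∀ r (x : Box k), i < r → c ≤ (x i).lo → B₁.b r x := by
    intro r x hr hx
    have h1 := Lab.congr F1 r x
    rw [← h1]
    refine B₁.refl r _ i hr ?_
    rw [map_modif_self]
    exact (min_eq_right hx).trans (min_eq_right (hx.trans (x i).le)).symm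
  have T2 : ∀ r (x : Box k), i < r → (x i).hi ≤ c → B₂.b r x := by
    intro r x hr hx
    have h1 := Lab.congr F2 r x
    rw [← h1]
    refine B₂.refl r _ i hr ?_
    rw [map_modif_self]
    exact (max_eq_right ((x i).le.trans hx)).trans (max_eq_right hx).symm
  have D1 : ∀ (x y : Box k), (∀ j < i, x j = y j) → (x i).lo ≤ c → c ≤ (y i).lo →
      (B₁.b i y ↔ B₂.b i x) := by
    intro x y hxy hx hy
    have l1 : (y.map (modif k i (minHom c)) i).lo = c := by
      rw [map_modif_self]
      exact min_eq_right hy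
    have l2 : (x.map (modif k i (maxHom c)) i).lo = c := by
      rw [map_modif_self]
      exact max_eq_right hx
    rw [← Lab.congr F1 i y, ← Lab.congr F2 i x]
    change B₁.b i (y.map _) ↔ B₂.b i (x.map _)
    rw [G' i _ le_rfl (fun _ => l1)]
    refine B₂.dep i _ _ (fun j hj => ?_) (l1.trans l2.symm)
    rw [map_modif_ne _ (by omega), map_modif_ne _ (by omega), hxy j hj]
  let b : ℕ → Box k → Prop := fun r x =>
    if i < r then B₁.b r x ∧ B₂.b r x else if (x i).lo ≤ c then B₁.b r x else B₂.b r x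
  have E0 : ∀ r x, i < r → (b r x ↔ B₁.b r x ∧ B₂.b r x) := fun r x hr => by
    simp only [b, if_pos hr]
  have E1 : ∀ r x, r ≤ i → (x i).lo ≤ c → (b r x ↔ B₁.b r x) := fun r x hr hx => by
    simp only [b, if_neg (not_lt.mpr hr), if_pos hx]
  have E2 : ∀ r x, r ≤ i → c ≤ (x i).lo → (b r x ↔ B₂.b r x) := fun r x hr hx => by
    rcases hx.eq_or_lt with h | h
    · rw [E1 r x hr h.symm.le]
      exact G' r x hr fun _ => h.symm
    · simp only [b, if_neg (not_lt.mpr hr), if_neg (not_le.mpr h)]
  have E3 : ∀ r x, r < i → (b r x ↔ B₁.b r x) := fun r x hr => by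
    rcases le_total (x i).lo c with h | h
    · exact E1 r x hr.le h
    · rw [E2 r x hr.le h]
      exact (G' r x hr.le fun h' => absurd h' hr.ne).symm
  have E4 : ∀ r x, r < i → (b r x ↔ B₂.b r x) := fun r x hr => by
    rw [E3 r x hr]
    exact G' r x hr.le fun h' => absurd h' hr.ne
  refine ⟨⟨b, ?_, ?_, ?_, ?_, ?_, ?_⟩, ?_, ?_⟩
  · intro r x y h h'
    by_cases hr : i < r
    · rw [E0 r x hr, E0 r y hr, B₁.dep r x y h h', B₂.dep r x y h h']
    rcases (not_lt.mp hr).eq_or_lt with hr' | hr'
    · subst hr'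
      rcases le_total (x r).lo c with h1 | h1
      · rw [E1 r x le_rfl h1, E1 r y le_rfl (h' ▸ h1), B₁.dep r x y h h']
      · rw [E2 r x le_rfl h1, E2 r y le_rfl (h' ▸ h1), B₂.dep r x y h h']
    · rw [E3 r x hr', E3 r y hr', B₁.dep r x y h h']
  · intro r x j hj h
    by_cases hr : i < r
    · rw [E0 r x hr]
      exact ⟨B₁.refl r x j hj h, B₂.refl r x j hj h⟩
    · rcases le_total (x i).lo c with h1 | h1
      · rw [E1 r x (not_lt.mp hr) h1]
        exact B₁.refl r x j hj h
      · rw [E2 r x (not_lt.mp hr) h1]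
        exact B₂.refl r x j hj h
  · intro r x y z j hj h1 h2 h3 h4 h5
    by_cases hr : i < r
    · rw [E0 r x hr, E0 r y hr, E0 r z hr, B₁.comp r x y z j hj h1 h2 h3 h4 h5,
        B₂.comp r x y z j hj h1 h2 h3 h4 h5]
      tauto
    · have hi1 := h1 i (by omega)
      have hi2 := h2 i (by omega)
      rcases le_total (x i).lo c with h | h
      · rw [E1 r x (not_lt.mp hr) h, E1 r y (not_lt.mp hr) (hi1 ▸ h), E1 r z (not_lt.mp hr) (hi2 ▸ h),
          B₁.comp r x y z j hj h1 h2 h3 h4 h5]
      · rw [E2 r x (not_lt.mp hr) h, E2 r y (not_lt.mp hr) (hi1 ▸ h), E2 r z (not_lt.mp hr) (hi2 ▸ h),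
          B₂.comp r x y z j hj h1 h2 h3 h4 h5]
  · intro r x y h h' hb
    rcases lt_trichotomy i r with hr | hr | hr
    · rw [E0 (r + 1) x (by omega)] at hb
      rw [E0 r x hr, E0 r y hr, B₁.pos r x y h h' hb.1, B₂.pos r x y h h' hb.2]
    · subst hr
      rw [E0 (i + 1) x (by omega)] at hb
      have k1 := B₁.pos i x y h h' hb.1
      have k2 := B₂.pos i x y h h' hb.2
      rcases le_total c (x i).lo with h1 | h1
      · rw [E2 i x le_rfl h1, E2 i y le_rfl (h1.trans ((x i).le.trans h'.le)), k2]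
      rcases le_total (y i).lo c with h2 | h2
      · rw [E1 i x le_rfl h1, E1 i y le_rfl h2, k1]
      · rw [E1 i x le_rfl h1, E2 i y le_rfl h2, k1, D1 x y h h1 h2, k2]
    · rcases le_total (x i).lo c with h1 | h1
      · rw [E1 (r + 1) x (by omega) h1] at hb
        rw [E3 r x hr, E3 r y hr, B₁.pos r x y h h' hb]
      · rw [E2 (r + 1) x (by omega) h1] at hb
        rw [E4 r x hr, E4 r y hr, B₂.pos r x y h h' hb]
  · intro x hx
    by_cases hr : i < 0
    · omega
    · rcases le_total (x i).lo c with h1 | h1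
      · rw [E1 0 x (by omega) h1] at hx
        exact B₁.obj x hx
      · rw [E2 0 x (by omega) h1] at hx
        exact B₂.obj x hx
  · intro ho x y h hx
    rcases Nat.eq_zero_or_pos i with hi | hi
    · subst hi
      rcases le_total c (x 0).lo with h1 | h1
      · rw [E2 0 x le_rfl h1] at hx
        rw [E2 0 y le_rfl (h1.trans ((x 0).le.trans h.le))]
        exact B₂.ord ho x y h hx
      rw [E1 0 x le_rfl h1] at hx
      rcases le_total (y 0).lo c with h2 | h2
      · rw [E1 0 y le_rfl h2]
        exact B₁.ord ho x y h hx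
      · rw [E2 0 y le_rfl h2]
        apply B₂.ord ho x y h
        rw [← D1 x y (by intro j hj; omega) h1 h2]
        exact B₁.ord ho x y h hx
    · rw [E3 0 x hi] at hx
      rw [E3 0 y hi]
      exact B₁.ord ho x y h hx
  · intro r x hx
    change b r x ↔ _
    by_cases hr : i < r
    · rw [E0 r x hr]
      exact ⟨fun h => h.1, fun h => ⟨h, T2 r x hr hx⟩⟩
    · exact E1 r x (not_lt.mp hr) ((x i).le.trans hx)
  · intro r x hx
    change b r x ↔ _
    by_cases hr : i < r
    · rw [E0 r x hr]
      exact ⟨fun h => h.2, fun h => ⟨T1 r x hr hx, h⟩⟩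
    · exact E2 r x (not_lt.mp hr) hx

lemma Z_segal (k : Arity) (i : ℕ) (c : Fin (k.len i + 1)) :
    Function.Bijective (fun φ : yoneda.obj k ⟶ Z R o => (cut k i c).ι ≫ φ) := by
  have c1 : modif k i (minHom c) ≫ modif k i (minHom c) = modif k i (minHom c) :=
    comp_modif _ fun t => by rw [modif_self]; exact min_eq_left (min_le_right _ _)
  have c2 : modif k i (maxHom c) ≫ modif k i (maxHom c) = modif k i (maxHom c) :=
    comp_modif _ fun t => by rw [modif_self]; exact max_eq_left (le_max_right _ _)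
  have c3 : modif k i (cstHom c) ≫ modif k i (minHom c) = modif k i (cstHom c) :=
    comp_modif _ fun t => by rw [modif_self]; exact min_self _
  have c4 : modif k i (cstHom c) ≫ modif k i (maxHom c) = modif k i (cstHom c) :=
    comp_modif _ fun t => by rw [modif_self]; exact max_self _
  apply bij_subfunctor
  · intro B B' h
    exact Z_segal_inj k i c B B' (h k _ (mem_cut_min c)) (h k _ (mem_cut_max c))
  · intro φ
    obtain ⟨B, h1, h2⟩ := Z_segal_surj k i c (φ.app (op k) ⟨_, mem_cut_min c⟩ : Lab R o k)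
      (φ.app (op k) ⟨_, mem_cut_max c⟩ : Lab R o k)
      (sub_nat φ _ _ _ (mem_cut_min c) (mem_cut_min c) c1)
      (sub_nat φ _ _ _ (mem_cut_max c) (mem_cut_max c) c2)
      ((sub_nat φ _ _ _ (mem_cut_min c) (mem_cut_cst c) c3).trans
      (sub_nat φ _ _ _ (mem_cut_max c) (mem_cut_cst c) c4).symm)
    refine ⟨B, fun l g hg => ?_⟩
    have hg0 := hg
    rcases hg with hg' | hg'
    · rw [← sub_nat φ g _ g (mem_cut_min c) hg0 (comp_modif _ fun t => min_eq_left (hg' t))]
      exact Lab.ext fun r x => h1 r (x.map g) (hg' _)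
    · rw [← sub_nat φ g _ g (mem_cut_max c) hg0 (comp_modif _ fun t => max_eq_left (hg' t))]
      exact Lab.ext fun r x => h2 r (x.map g) (hg' _)

end Pool.Agent.WCI
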